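import Mathlib

open MulAction Subgroup Function

namespace Pool.Agent.MP_d64882_nt

/-- an equivariant map with fibres of constant size -/
def Cov {G : Type*} [Group G] (Y X : Type*) [MulAction G Y] [MulAction G X] (σ : G) : Prop :=
  ∃ φ : Y → X, (∀ y, φ (σ • y) = σ • φ y) ∧
    ∀ x x', Nat.card {y // φ y = x} = Nat.card {y // φ y = x'}

/-- the fibres of `π` are the orbits of `σ`, and `f` gives their sizes -/
def OrbData {G : Type*} [Group G] {Y P : Type*} [MulAction G Y] (σ : G) (π : Y → P)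
    (f : P → ℕ) : Prop :=
  Surjective π ∧ (∀ y y', π y' = π y ↔ y' ∈ orbit (zpowers σ) y) ∧ ∀ y, f (π y) = period σ y

/-- the numerical condition -/
def Loc {PY PX : Type*} (fY : PY → ℕ) (fX : PX → ℕ) (c : ℕ) : Prop :=
  ∃ (r : PX → ℕ) (e : ∀ i, Fin (r i) → ℕ) (b : PY ≃ Σ i, Fin (r i)),
    (∀ i j, 0 < e i j) ∧ (∀ i, ∑ j, e i j = c) ∧ ∀ Q, fY Q = fX (b Q).1 * e (b Q).1 (b Q).2

open Classical in
lemma natCard_eq_filter {Y : Type*} [Fintype Y] (p : Y → Prop) :
    Nat.card {y // p y} = (Finset.univ.filter p).card := by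
  rw [Nat.card_eq_fintype_card, Fintype.card_subtype]

open Classical in
lemma loc_iff {PY PX : Type*} [Fintype PY] (fY : PY → ℕ) (fX : PX → ℕ) (c : ℕ) :
    Loc fY fX c ↔ ∃ (ψ : PY → PX) (e : PY → ℕ), (∀ Q, 0 < e Q) ∧
      (∀ i, ∑ Q with ψ Q = i, e Q = c) ∧ ∀ Q, fY Q = fX (ψ Q) * e Q := by
  constructor
  · rintro ⟨r, e, b, h1, h2, h3⟩
    refine ⟨fun Q => (b Q).1, fun Q => e (b Q).1 (b Q).2, fun Q => h1 _ _, fun i => ?_, h3⟩
    rw [← h2 i]
    symm
    refine Finset.sum_bij (fun j _ => b.symm ⟨i, j⟩) ?_ ?_ ?_ ?_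
    · intro j _; simp
    · intro j _ j' _ h
      have := b.symm.injective h
      simpa using this
    · intro Q hQ
      have hQ' : (b Q).1 = i := (Finset.mem_filter.1 hQ).2
      subst hQ'
      exact ⟨(b Q).2, Finset.mem_univ _, by simp⟩
    · intro j _
      have : ∀ u : Σ i, Fin (r i), u = ⟨i, j⟩ → e i j = e u.1 u.2 := by
        rintro u rfl; rfl
      exact this _ (by simp)
  · rintro ⟨ψ, e, h1, h2, h3⟩
    let r : PX → ℕ := fun i => Fintype.card {Q // ψ Q = i}
    let a : ∀ i, {Q // ψ Q = i} ≃ Fin (r i) := fun i => Fintype.equivFin _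
    refine ⟨r, fun i j => e ((a i).symm j).1,
      (Equiv.sigmaFiberEquiv ψ).symm.trans (Equiv.sigmaCongrRight a), fun i j => h1 _,
      fun i => ?_, fun Q => ?_⟩
    · rw [← h2 i, (a i).symm.sum_comp (fun Q => e Q.1)]
      exact (Finset.sum_subtype _ (by simp) e).symm
    · rw [h3 Q]
      change _ = fX (ψ Q) * e ((a (ψ Q)).symm (a (ψ Q) ⟨Q, rfl⟩)).1
      rw [Equiv.symm_apply_apply]

variable {G : Type*} [Group G] {Y X : Type*} [MulAction G Y] [MulAction G X]

lemma zpowers_ind {p : G → Prop} (h1 : p 1) (hm : ∀ a b, p a → p b → p (a * b))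
    (hi : ∀ a, p a → p a⁻¹) {σ τ : G} (hσ : p σ) (hτ : τ ∈ zpowers σ) : p τ := by
  let S : Subgroup G := ⟨⟨⟨{a | p a}, fun {a b} => hm a b⟩, h1⟩, fun {a} => hi a⟩
  exact (zpowers_le_of_mem (H := S) hσ) hτ

lemma equivariant_zpowers {φ : Y → X} {σ : G} (h : ∀ y, φ (σ • y) = σ • φ y) {τ : G}
    (hτ : τ ∈ zpowers σ) (y : Y) : φ (τ • y) = τ • φ y := by
  revert y
  refine zpowers_ind (p := fun τ => ∀ y, φ (τ • y) = τ • φ y) (by simp) ?_ ?_ h hτ
  · intro a b ha hb y
    rw [mul_smul, ha, hb, mul_smul]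
  · intro a ha y
    rw [eq_inv_smul_iff, ← ha, smul_inv_smul]

lemma Cov.of_mem_zpowers {σ τ : G} (h : Cov Y X σ) (hτ : τ ∈ zpowers σ) : Cov Y X τ := by
  obtain ⟨φ, h1, h2⟩ := h
  exact ⟨φ, equivariant_zpowers h1 hτ, h2⟩

lemma Cov.conj {σ : G} (h : Cov Y X σ) (g : G) : Cov Y X (g⁻¹ * σ * g) := by
  obtain ⟨φ, h1, h2⟩ := h
  refine ⟨fun y => g⁻¹ • φ (g • y), fun y => by simp [mul_smul, h1], fun x x' => ?_⟩
  have : ∀ x, Nat.card {y // g⁻¹ • φ (g • y) = x} = Nat.card {y // φ y = g • x} := fun x =>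
    Nat.card_congr ((MulAction.toPerm g).subtypeEquiv fun y => by simp [inv_smul_eq_iff])
  rw [this, this, h2]

lemma Cov.congr {Y' : Type*} [MulAction G Y'] (e : Y' ≃ Y) (he : ∀ (g : G) y, e (g • y) = g • e y)
    {σ : G} (h : Cov Y X σ) : Cov Y' X σ := by
  obtain ⟨φ, h1, h2⟩ := h
  refine ⟨fun y => φ (e y), fun y => by simp [he, h1], fun x x' => ?_⟩
  have : ∀ x, Nat.card {y // φ (e y) = x} = Nat.card {y // φ y = x} := fun x =>
    Nat.card_congr (e.subtypeEquiv fun y => by simp)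
  rw [this, this, h2]

open Classical in
lemma card_eq_mul_of_fibres [Finite Y] [Finite X] {φ : Y → X} {c : ℕ}
    (h : ∀ x, Nat.card {y // φ y = x} = c) : Nat.card Y = Nat.card X * c := by
  have := Fintype.ofFinite Y
  have := Fintype.ofFinite X
  rw [Nat.card_eq_fintype_card, Nat.card_eq_fintype_card, ← Finset.card_univ,
    Finset.card_eq_sum_card_fiberwise (f := φ) (t := Finset.univ) (fun _ _ => Finset.mem_univ _)]
  simp_rw [← natCard_eq_filter, h]
  simp

lemma Cov.dvd [Finite Y] [Finite X] [Nonempty X] {σ : G} (h : Cov Y X σ) :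
    Nat.card X ∣ Nat.card Y := by
  obtain ⟨φ, -, h2⟩ := h
  exact ⟨_, card_eq_mul_of_fibres (φ := φ) fun x => h2 x (Classical.arbitrary X)⟩

lemma ncard_orbit [Finite Y] (σ : G) (y : Y) :
    (orbit (zpowers σ) y).ncard = period σ y := by
  have := Fintype.ofFinite (orbit (zpowers σ) y)
  rw [period_eq_minimalPeriod, minimalPeriod_eq_card, ← Nat.card_coe_set_eq,
    Nat.card_eq_fintype_card]

lemma period_pos' [Finite Y] (σ : G) (y : Y) : 0 < period σ y := by
  rw [← ncard_orbit]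
  exact (Set.ncard_pos (Set.toFinite _)).2 (nonempty_orbit y)

open Classical in
lemma orbData_of [Fintype Y] {P : Type*} [Fintype P] (σ : G) (π : Y → P) (f : P → ℕ)
    (hs : Surjective π) (hi : ∀ y, π (σ • y) = π y) (hd : ∀ y, f (π y) ∣ period σ y)
    (hsum : ∑ i, f i = Fintype.card Y) : OrbData σ π f := by
  have h0 : ∀ y, orbit (zpowers σ) y ⊆ π ⁻¹' {π y} := by
    rintro y _ ⟨⟨τ, hτ⟩, rfl⟩
    change π (τ • y) = π y
    revert y
    refine zpowers_ind (p := fun τ => ∀ y, π (τ • y) = π y) (by simp) ?_ ?_ hi hτ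
    · intro a b ha hb y
      rw [mul_smul, ha, hb]
    · intro a ha y
      rw [← ha, smul_inv_smul]
  have h1 : ∀ y, period σ y ≤ (π ⁻¹' {π y}).ncard := fun y => by
    rw [← ncard_orbit]; exact Set.ncard_le_ncard (h0 y)
  have h2 : ∀ y, f (π y) ≤ period σ y := fun y => Nat.le_of_dvd (period_pos' σ y) (hd y)
  have h3 : ∑ i, (π ⁻¹' {i}).ncard = Fintype.card Y := by
    rw [← Finset.card_univ, Finset.card_eq_sum_card_fiberwise (f := π) (t := Finset.univ)
      (fun _ _ => Finset.mem_univ _)]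
    refine Finset.sum_congr rfl fun i _ => ?_
    rw [← natCard_eq_filter, ← Nat.card_coe_set_eq]
    rfl
  have h4 : ∀ i, f i = (π ⁻¹' {i}).ncard := by
    have := (Finset.sum_eq_sum_iff_of_le (s := Finset.univ) (f := f)
      (g := fun i => (π ⁻¹' {i}).ncard) (fun i _ => by
        obtain ⟨y, rfl⟩ := hs i
        exact (h2 y).trans (h1 y))).1 (hsum.trans h3.symm)
    exact fun i => this i (Finset.mem_univ _)
  have h5 : ∀ y, f (π y) = period σ y := fun y => le_antisymm (h2 y) (by rw [h4]; exact h1 y)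
  refine ⟨hs, fun y y' => ?_, h5⟩
  have h6 : orbit (zpowers σ) y = π ⁻¹' {π y} :=
    Set.eq_of_subset_of_ncard_le (h0 y) (by rw [← h4, h5, ncard_orbit])
  rw [h6]; rfl

open Classical in
lemma OrbData.card_fibre [Fintype Y] {P : Type*} {σ : G} {π : Y → P} {f : P → ℕ}
    (h : OrbData σ π f) (i : P) : (Finset.univ.filter fun y => π y = i).card = f i := by
  obtain ⟨y, rfl⟩ := h.1 i
  rw [h.2.2, ← ncard_orbit, ← natCard_eq_filter, ← Nat.card_coe_set_eq]
  exact Nat.card_congr (Equiv.subtypeEquivRight (h.2.1 y))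

lemma exists_equivariant {C : Type*} [Group C] {Y X Z : Type*} [MulAction C Y] [MulAction C X]
    [MulAction C Z] (π : Y → Z) (hπ : ∀ (c : C) y, π (c • y) = c • π y) (φ : Z → Y → X)
    (hφ : ∀ z (c : C) y, c • z = z → π y = z → φ z (c • y) = c • φ z y) :
    ∃ Φ : Y → X, (∀ (c : C) y, Φ (c • y) = c • Φ y) ∧
      ∀ z, ∃ (c : C) (z₀ : Z), c • z₀ = z ∧ ∀ y, π y = z → Φ y = c • φ z₀ (c⁻¹ • y) := by
  let rep : Z → Z := fun z => (Quotient.mk (orbitRel C Z) z).out
  have h1 : ∀ z, ∃ c : C, c • rep z = z := fun z => by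
    have : (orbitRel C Z) z (rep z) := (orbitRel C Z).symm (Quotient.mk_out (s := orbitRel C Z) z)
    exact this
  have h2 : ∀ (c : C) z, rep (c • z) = rep z := fun c z => by
    have : Quotient.mk (orbitRel C Z) (c • z) = Quotient.mk (orbitRel C Z) z :=
      Quotient.sound ⟨c, rfl⟩
    simp only [rep, this]
  choose t ht using h1
  refine ⟨fun y => t (π y) • φ (rep (π y)) ((t (π y))⁻¹ • y), fun c y => ?_,
    fun z => ⟨t z, rep z, ht z, fun y hy => by simp only [hy]⟩⟩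
  simp only [hπ, h2]
  have h3 := hφ (rep (π y)) ((t (c • π y))⁻¹ * c * t (π y)) ((t (π y))⁻¹ • y)
    (by rw [mul_smul, mul_smul, ht, inv_smul_eq_iff, ← h2 c, ht])
    (by rw [hπ, inv_smul_eq_iff, ht])
  simp only [mul_smul, smul_inv_smul] at h3
  rw [h3, smul_inv_smul]

omit [MulAction G X] in
open Classical in
lemma sum_fibres [Fintype Y] [Fintype X] {PY PX : Type*} [Fintype PY] {σ : G}
    {πY : Y → PY} {fY : PY → ℕ} {πX : X → PX} (hY : OrbData σ πY fY) {Φ : Y → X} {ψ : PY → PX}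
    (h : ∀ y, πX (Φ y) = ψ (πY y)) (i : PX) :
    ∑ Q with ψ Q = i, fY Q = ∑ x with πX x = i, Nat.card {y // Φ y = x} := by
  have h1 := Finset.card_eq_sum_card_fiberwise (f := πY)
    (s := Finset.univ.filter fun y => πX (Φ y) = i) (t := Finset.univ.filter fun Q => ψ Q = i)
    (fun y hy => by simpa [h] using hy)
  have h2 := Finset.card_eq_sum_card_fiberwise (f := Φ)
    (s := Finset.univ.filter fun y => πX (Φ y) = i) (t := Finset.univ.filter fun x => πX x = i)
    (fun y hy => by simpa using hy)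
  calc _ = _ := Finset.sum_congr rfl fun Q hQ => ?_
    _ = _ := h1.symm.trans h2
    _ = _ := Finset.sum_congr rfl fun x hx => ?_
  · rw [← hY.card_fibre Q]
    congr 1
    ext y
    have := (Finset.mem_filter.1 hQ).2
    simp only [Finset.mem_filter, Finset.mem_univ, true_and, h]
    exact ⟨fun h' => ⟨by rw [h', this], h'⟩, fun h' => h'.2⟩
  · rw [natCard_eq_filter]
    congr 1
    ext y
    have := (Finset.mem_filter.1 hx).2
    simp only [Finset.mem_filter, Finset.mem_univ, true_and]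
    exact ⟨fun h' => h'.2, fun h' => ⟨by rw [h', this], h'⟩⟩

lemma period_dvd_of_equivariant {φ : Y → X} {σ : G} (h : ∀ y, φ (σ • y) = σ • φ y) (y : Y) :
    period σ (φ y) ∣ period σ y := by
  rw [← pow_smul_eq_iff_period_dvd, ← equivariant_zpowers h (npow_mem_zpowers σ _),
    pow_period_smul]

open Classical in
theorem cov_iff_loc [Finite Y] [Finite X] [Nonempty X] {PY PX : Type*} {σ : G}
    {πY : Y → PY} {fY : PY → ℕ} {πX : X → PX} {fX : PX → ℕ}
    (hY : OrbData σ πY fY) (hX : OrbData σ πX fX) :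
    Cov Y X σ ↔ Loc fY fX (Nat.card Y / Nat.card X) := by
  have := Fintype.ofFinite Y
  have := Fintype.ofFinite X
  have : Finite PY := Finite.of_surjective _ hY.1
  have := Fintype.ofFinite PY
  have hfX : ∀ i, 0 < fX i := fun i => by
    obtain ⟨x, rfl⟩ := hX.1 i
    rw [hX.2.2]; exact period_pos' σ x
  have hfY : ∀ i, 0 < fY i := fun i => by
    obtain ⟨x, rfl⟩ := hY.1 i
    rw [hY.2.2]; exact period_pos' σ x
  rw [loc_iff]
  constructor
  · rintro ⟨Φ, h1, h2⟩
    have hc : ∀ x, Nat.card {y // Φ y = x} = Nat.card Y / Nat.card X := fun x => by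
      rw [card_eq_mul_of_fibres (φ := Φ) fun x' => h2 x' x, Nat.mul_div_cancel_left _ Nat.card_pos]
    let ψ : PY → PX := fun Q => πX (Φ (surjInv hY.1 Q))
    have h3 : ∀ y, πX (Φ y) = ψ (πY y) := fun y => by
      obtain ⟨⟨τ, hτ⟩, h4⟩ := (hY.2.1 (surjInv hY.1 (πY y)) y).1 (surjInv_eq hY.1 _).symm
      refine (hX.2.1 _ _).2 ⟨⟨τ, hτ⟩, ?_⟩
      change τ • Φ _ = _
      rw [← equivariant_zpowers h1 hτ]
      exact congrArg Φ h4
    have h4 : ∀ Q, fX (ψ Q) ∣ fY Q := fun Q => by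
      obtain ⟨y, rfl⟩ := hY.1 Q
      rw [← h3, hX.2.2, hY.2.2]
      exact period_dvd_of_equivariant h1 y
    choose e he using h4
    refine ⟨ψ, e, fun Q => ?_, fun i => ?_, he⟩
    · have := hfY Q
      rw [he] at this
      exact Nat.pos_of_mul_pos_left this
    · have h5 := sum_fibres hY h3 i
      simp_rw [hc] at h5
      rw [Finset.sum_const, hX.card_fibre, smul_eq_mul,
        Finset.sum_congr rfl (fun Q hQ => by rw [he Q, (Finset.mem_filter.1 hQ).2]),
        ← Finset.mul_sum] at h5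
      exact Nat.eq_of_mul_eq_mul_left (hfX i) h5
  · rintro ⟨ψ, e, -, h2, h3⟩
    obtain ⟨Φ, h4, h5⟩ := exists_equivariant (C := zpowers σ) (X := X) (id : Y → Y)
      (fun _ _ => rfl) (fun z _ => surjInv hX.1 (ψ (πY z))) (by
        rintro z ⟨_, k, rfl⟩ y hz -
        symm
        change σ ^ k • z = z at hz
        change σ ^ k • surjInv hX.1 (ψ (πY z)) = surjInv hX.1 (ψ (πY z))
        rw [zpow_smul_eq_iff_period_dvd] at hz ⊢
        refine dvd_trans ?_ hz
        rw [← hX.2.2, ← hY.2.2, surjInv_eq hX.1, h3]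
        exact_mod_cast Dvd.intro _ rfl)
    have h6 : ∀ y, πX (Φ y) = ψ (πY y) := fun y => by
      obtain ⟨c, z, h7, h8⟩ := h5 y
      have h9 : πY y = πY z := (hY.2.1 _ _).2 ⟨c, h7⟩
      rw [h8 y rfl, h9, ← surjInv_eq hX.1 (ψ (πY z))]
      refine (hX.2.1 _ _).2 ⟨c, ?_⟩
      simp only [surjInv_eq hX.1]
    have h7 : ∀ x, Nat.card {y // Φ y = x} = Nat.card Y / Nat.card X := fun x => by
      have h8 := sum_fibres hY h6 (πX x)
      have h9 : ∀ x' ∈ Finset.univ.filter (fun x' => πX x' = πX x),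
          Nat.card {y // Φ y = x'} = Nat.card {y // Φ y = x} := by
        intro x' hx'
        obtain ⟨c, rfl⟩ := (hX.2.1 _ _).1 (Finset.mem_filter.1 hx').2
        symm
        exact Nat.card_congr ((MulAction.toPerm c).subtypeEquiv fun y => by simp [h4])
      rw [Finset.sum_congr rfl h9, Finset.sum_const, hX.card_fibre, smul_eq_mul,
        Finset.sum_congr rfl (fun Q hQ => by rw [h3 Q, (Finset.mem_filter.1 hQ).2]),
        ← Finset.mul_sum, h2] at h8
      exact (Nat.eq_of_mul_eq_mul_left (hfX _) h8).symm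
    exact ⟨Φ, fun y => h4 ⟨σ, mem_zpowers σ⟩ y, fun x x' => by rw [h7, h7]⟩

end Pool.Agent.MP_d64882_nt
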