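import Mathlib
import Pool.Agent.MP_d64882_nt.Orb

open MulAction Subgroup Function NumberField Ideal
open scoped Pointwise

namespace Pool.Agent.MP_d64882_nt

/-- embeddings of `E` in `M` -/
def Emb (E M : Type*) [Field E] [Field M] := E →+* M

variable {E M : Type*} [Field E] [Field M]

/-- underlying ring hom -/
def Emb.hom (τ : Emb E M) : E →+* M := τ

/-- embedding from a ring hom -/
def Emb.mk (τ : E →+* M) : Emb E M := τ

@[simp] lemma Emb.hom_mk (τ : E →+* M) : (Emb.mk τ).hom = τ := rfl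

lemma Emb.ext {τ τ' : Emb E M} (h : ∀ x, τ.hom x = τ'.hom x) : τ = τ' := RingHom.ext h

variable [NumberField M]

instance : MulAction (M ≃ₐ[ℚ] M) (Emb E M) where
  smul g τ := Emb.mk ((g : M →+* M).comp τ.hom)
  one_smul _ := rfl
  mul_smul _ _ _ := rfl

@[simp] lemma Emb.smul_apply (g : M ≃ₐ[ℚ] M) (τ : Emb E M) (x : E) :
    (g • τ).hom x = g (τ.hom x) := rfl

variable [NumberField E]

instance : Finite (Emb E M) :=
  Finite.of_equiv (E →ₐ[ℚ] M) (RingHom.equivRatAlgHom E M).symm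

variable [IsGalois ℚ M]

lemma Emb.card (τ₀ : Emb E M) : Nat.card (Emb E M) = Module.finrank ℚ E := by
  rw [← AlgHom.card_of_splits ℚ E M, ← Nat.card_eq_fintype_card]
  · exact Nat.card_congr (RingHom.equivRatAlgHom E M)
  · intro x
    rw [← minpoly.algHom_eq τ₀.hom.toRatAlgHom τ₀.hom.injective x]
    exact Normal.splits inferInstance _

lemma Emb.exists_smul (τ τ' : Emb E M) : ∃ g : M ≃ₐ[ℚ] M, g • τ = τ' := by
  let : Algebra E M := τ.hom.toAlgebra
  have : IsScalarTower ℚ E M := IsScalarTower.of_algebraMap_eq' (Subsingleton.elim _ _)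
  let φ : M →ₐ[ℚ] M := AlgHom.liftNormal τ'.hom.toRatAlgHom M
  refine ⟨AlgEquiv.ofBijective φ (Algebra.IsAlgebraic.algHom_bijective φ), Emb.ext fun x => ?_⟩
  exact AlgHom.liftNormal_commutes τ'.hom.toRatAlgHom M x

omit [NumberField E] [IsGalois ℚ M] in
lemma Emb.map_smul (g : M ≃ₐ[ℚ] M) (τ : Emb E M) (x : 𝓞 E) :
    RingOfIntegers.mapRingHom (g • τ).hom x = g • RingOfIntegers.mapRingHom τ.hom x := rfl

/-- the prime of `E` determined by an embedding and a prime of `M` -/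
def Emb.prime (p : ℕ) (Q : Ideal (𝓞 M)) (hQ : Q ∈ (span {(p : ℤ)}).primesOver (𝓞 M))
    (τ : Emb E M) : (span {(p : ℤ)}).primesOver (𝓞 E) :=
  ⟨Q.comap (RingOfIntegers.mapRingHom τ.hom), by
    have := hQ.1
    refine ⟨comap_isPrime _ _, ⟨?_⟩⟩
    rw [hQ.2.over, under_def, under_def, Ideal.comap_comap]
    congr 1
    exact Subsingleton.elim _ _⟩

lemma dvd_of_pow_eq {F : Type*} [Field F] [Finite F] {p f k : ℕ} (hp : p.Prime)
    (hF : Nat.card F = p ^ f) (h : ∀ x : F, x ^ p ^ k = x) : f ∣ k := by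
  have := Fintype.ofFinite F
  have h1 : Fintype.card F - 1 ∣ p ^ k - 1 := by
    rw [← FiniteField.forall_pow_eq_one_iff]
    intro x
    have h2 : x ^ p ^ k = x := Units.ext (by simpa using h x)
    have h3 : p ^ k = p ^ k - 1 + 1 := (Nat.sub_add_cancel (Nat.one_le_pow _ _ hp.pos)).symm
    rw [h3, pow_succ] at h2
    simpa using h2
  rw [← Nat.card_eq_fintype_card, hF, ← Nat.gcd_eq_left_iff_dvd,
    Nat.pow_sub_one_gcd_pow_sub_one] at h1
  have h4 : p ^ f.gcd k = p ^ f := by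
    have := Nat.one_le_pow (f.gcd k) p hp.pos
    have := Nat.one_le_pow f p hp.pos
    omega
  rw [← Nat.gcd_eq_left_iff_dvd]
  exact Nat.pow_right_injective hp.two_le h4

theorem orbData_frob (p : ℕ) (hp : p.Prime) (Q : Ideal (𝓞 M))
    (hQ : Q ∈ (span {(p : ℤ)}).primesOver (𝓞 M)) (σ : M ≃ₐ[ℚ] M) (hσ : IsArithFrobAt ℤ σ Q)
    (τ₀ : Emb E M) (hE : Algebra.IsUnramifiedIn (𝓞 E) (span {(p : ℤ)})) :
    OrbData σ (Emb.prime (E := E) p Q hQ) (fun P => P.1.inertiaDeg ℤ) := by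
  classical
  have := Fact.mk hp
  have := hQ.1
  have := hQ.2
  have := Fintype.ofFinite (Emb E M)
  have : Fintype ((span {(p : ℤ)}).primesOver (𝓞 E)) :=
    (Algebra.QuasiFinite.finite_primesOver _).fintype
  refine orbData_of σ _ _ ?_ ?_ ?_ ?_
  · rintro ⟨P, hP1, hP2⟩
    let : Algebra (𝓞 E) (𝓞 M) := (RingOfIntegers.mapRingHom τ₀.hom).toAlgebra
    have : IsScalarTower ℤ (𝓞 E) (𝓞 M) := IsScalarTower.of_algebraMap_eq' (Subsingleton.elim _ _)
    have : Algebra.IsIntegral (𝓞 E) (𝓞 M) := Algebra.IsIntegral.tower_top ℤ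
    obtain ⟨Q', hQ1, hQ2⟩ := exists_ideal_over_prime_of_isIntegral_of_isDomain (S := 𝓞 M) P (by
      intro x hx
      have h1 : τ₀.hom x = 0 := congrArg Subtype.val hx
      have h2 : x = 0 := by
        ext; simpa using h1
      rw [h2]; exact P.zero_mem)
    have : Q'.LiesOver P := ⟨hQ2.symm⟩
    have : Q'.LiesOver (span {(p : ℤ)}) := LiesOver.trans Q' P _
    obtain ⟨g, hg⟩ := exists_smul_eq_of_isGaloisGroup (span {(p : ℤ)}) Q' Q (M ≃ₐ[ℚ] M)
    refine ⟨g • τ₀, Subtype.ext ?_⟩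
    ext x
    change RingOfIntegers.mapRingHom (g • τ₀).hom x ∈ Q ↔ x ∈ P
    rw [Emb.map_smul, ← hg, Ideal.smul_mem_pointwise_smul_iff, ← hQ2]
    rfl
  · intro τ
    refine Subtype.ext ?_
    ext x
    change RingOfIntegers.mapRingHom (σ • τ).hom x ∈ Q ↔ RingOfIntegers.mapRingHom τ.hom x ∈ Q
    rw [Emb.map_smul]
    conv_lhs => rw [← hσ.mem_stabilizer]
    exact Ideal.smul_mem_pointwise_smul_iff
  · intro τ
    set P := Emb.prime p Q hQ τ with hP
    have := P.2.1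
    have := P.2.2
    have : P.1.IsMaximal := IsMaximal.of_liesOver_isMaximal P.1 (span {(p : ℤ)})
    let := Ideal.Quotient.field P.1
    have hc : Nat.card (𝓞 E ⧸ P.1) = p ^ P.1.inertiaDeg ℤ := by
      rw [pow_inertiaDeg p P.1]; rfl
    have : Finite (𝓞 E ⧸ P.1) := Nat.finite_of_card_ne_zero (by rw [hc]; exact pow_ne_zero _ hp.ne_zero)
    refine dvd_of_pow_eq hp hc fun x => ?_
    obtain ⟨x, rfl⟩ := Ideal.Quotient.mk_surjective x
    have hq : Nat.card (ℤ ⧸ Q.under ℤ) = p := by rw [← hQ.2.over, Int.card_ideal_quot]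
    have h1 : ∀ (k : ℕ) (y : 𝓞 M), Ideal.Quotient.mk Q (σ ^ k • y) = Ideal.Quotient.mk Q y ^ p ^ k := by
      intro k y
      induction k with
      | zero => simp
      | succ k ih =>
        rw [pow_succ', mul_smul, pow_succ, pow_mul, ← ih, ← hq]
        exact hσ.mk_apply _
    have h2 := h1 (period σ τ) (RingOfIntegers.mapRingHom τ.hom x)
    rw [← Emb.map_smul, pow_period_smul, ← map_pow, ← map_pow] at h2
    rw [← map_pow, Ideal.Quotient.eq]
    change RingOfIntegers.mapRingHom τ.hom _ ∈ Q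
    rw [map_sub, ← Ideal.Quotient.eq]
    exact h2.symm
  · rw [← Nat.card_eq_fintype_card, τ₀.card, ← RingOfIntegers.rank,
      ← sum_ramification_inertia_eq_finrank (span {(p : ℤ)}) (𝓞 E)]
    refine Finset.sum_congr rfl fun P _ => ?_
    have := P.2.1
    rw [hE.ramificationIdx_eq_one P.2.2, one_mul]

theorem exists_frob (p : ℕ) (hp : p.Prime) : ∃ (Q : Ideal (𝓞 M))
    (_ : Q ∈ (span {(p : ℤ)}).primesOver (𝓞 M)) (σ : M ≃ₐ[ℚ] M), IsArithFrobAt ℤ σ Q := by
  have := Fact.mk hp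
  obtain ⟨Q, hQ1, hQ2⟩ := exists_ideal_over_prime_of_isIntegral_of_isDomain (S := 𝓞 M)
    (span {(p : ℤ)}) (by
      rw [(RingHom.injective_iff_ker_eq_bot _).1 (algebraMap ℤ (𝓞 M)).injective_int]
      exact bot_le)
  have : Q.LiesOver (span {(p : ℤ)}) := ⟨hQ2.symm⟩
  have hc : Nat.card (𝓞 M ⧸ Q) = p ^ Q.inertiaDeg ℤ := by
    rw [pow_inertiaDeg p Q]; rfl
  have : Finite (𝓞 M ⧸ Q) := Nat.finite_of_card_ne_zero (by rw [hc]; exact pow_ne_zero _ hp.ne_zero)
  obtain ⟨σ, hσ⟩ := IsArithFrobAt.exists_of_isInvariant ℤ (M ≃ₐ[ℚ] M) Q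
  exact ⟨Q, ⟨hQ1, inferInstance⟩, σ, hσ⟩

end Pool.Agent.MP_d64882_nt
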