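import Mathlib

open NumberField Ideal Filter Topology Asymptotics

namespace Pool.Agent.MP_d64882_nt

variable (E : Type*) [Field E] [NumberField E]

/-- number of ideals of norm `n` -/
noncomputable def cnt (n : ℕ) : ℕ := Nat.card {I : Ideal (𝓞 E) // absNorm I = n}

lemma hasSum_ideal (g : ℕ → ℝ) (hg : ∀ n, 0 ≤ g n) (h : Summable fun n => (cnt E n : ℝ) * g n) :
    HasSum (fun I : Ideal (𝓞 E) => g (absNorm I)) (∑' n, (cnt E n : ℝ) * g n) := by
  have hfin : ∀ n, Finite {I : Ideal (𝓞 E) // absNorm I = n} := fun n =>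
    (finite_setOfPred_absNorm_eq (S := 𝓞 E) n).to_subtype
  have h1 : ∀ n, HasSum (fun I : {I : Ideal (𝓞 E) // absNorm I = n} => g (absNorm I.1))
      ((cnt E n : ℝ) * g n) := by
    intro n
    have := Fintype.ofFinite {I : Ideal (𝓞 E) // absNorm I = n}
    have h2 := hasSum_fintype (fun I : {I : Ideal (𝓞 E) // absNorm I = n} => g (absNorm I.1))
    convert h2 using 1
    rw [Finset.sum_congr rfl (fun I _ => by rw [I.2])]
    simp [cnt, Nat.card_eq_fintype_card]
  rw [← (Equiv.sigmaFiberEquiv (fun I : Ideal (𝓞 E) => absNorm I)).hasSum_iff]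
  have hs : Summable ((fun I : Ideal (𝓞 E) => g (absNorm I)) ∘
      (Equiv.sigmaFiberEquiv (fun I : Ideal (𝓞 E) => absNorm I))) := by
    refine (summable_sigma_of_nonneg (fun _ => hg _)).2 ⟨fun n => (h1 n).summable, ?_⟩
    convert h using 2 with n
    exact (h1 n).tsum_eq
  have h3 := hs.hasSum.sigma h1
  rw [h3.tsum_eq]
  exact hs.hasSum

lemma term_eq (s : ℝ) (hs : 1 < s) (n : ℕ) :
    LSeries.term (fun n ↦ (Nat.card {I : Ideal (𝓞 E) // absNorm I = n} : ℂ)) s n
      = (((cnt E n : ℝ) * (n : ℝ) ^ (-s) : ℝ) : ℂ) := by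
  rcases Nat.eq_zero_or_pos n with rfl | hn
  · simp [Real.zero_rpow (show -s ≠ 0 by linarith)]
  · rw [LSeries.term_of_ne_zero hn.ne']
    push_cast
    rw [Complex.ofReal_cpow (Nat.cast_nonneg n), div_eq_mul_inv, ← Complex.cpow_neg]
    simp [cnt]

/-- real zeta function -/
noncomputable def Z (s : ℝ) : ℝ := ∑' n, (cnt E n : ℝ) * (n : ℝ) ^ (-s)

lemma zeta_eq (s : ℝ) (hs : 1 < s) : dedekindZeta E s = (Z E s : ℂ) := by
  rw [dedekindZeta, LSeries, Z, Complex.ofReal_tsum]
  exact tsum_congr (term_eq E s hs)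

lemma Z_tendsto : Tendsto (fun s : ℝ => (s - 1) * Z E s) (𝓝[>] 1) (𝓝 (dedekindZeta_residue E)) := by
  have h := tendsto_sub_one_mul_dedekindZeta_nhdsGT E
  have h2 := (Complex.continuous_re.tendsto _).comp h
  simp only [Complex.ofReal_re] at h2
  refine h2.congr' ?_
  filter_upwards [self_mem_nhdsWithin] with s hs
  simp only [Function.comp_apply]
  rw [zeta_eq E s hs]
  norm_cast

lemma Z_summable (s : ℝ) (hs : 1 < s) : Summable fun n => (cnt E n : ℝ) * (n : ℝ) ^ (-s) := by
  have h := (Z_tendsto E).eventually (lt_mem_nhds (dedekindZeta_residue_pos E))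
  have h2 : ∀ᶠ t in 𝓝[>] (1 : ℝ), t ∈ Set.Ioo 1 s := Ioo_mem_nhdsGT hs
  obtain ⟨t, ht1, ht2⟩ := (h.and h2).exists
  have h3 : Summable fun n => (cnt E n : ℝ) * (n : ℝ) ^ (-t) := by
    by_contra hc
    rw [Z, tsum_eq_zero_of_not_summable hc] at ht1
    simp at ht1
  refine Summable.of_nonneg_of_le (fun n => by positivity) (fun n => ?_) h3
  rcases Nat.eq_zero_or_pos n with rfl | hn
  · simp [Real.zero_rpow (show -s ≠ 0 by linarith), Real.zero_rpow (show -t ≠ 0 by linarith [ht2.1])]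
  · gcongr
    · exact_mod_cast hn
    · exact ht2.2.le

/-- weight of an ideal -/
noncomputable def w (s : ℝ) (I : Ideal (𝓞 E)) : ℝ := (absNorm I : ℝ) ^ (-s)

lemma w_nonneg (s : ℝ) (I : Ideal (𝓞 E)) : 0 ≤ w E s I := by unfold w; positivity

lemma hasSum_w (s : ℝ) (hs : 1 < s) : HasSum (w E s) (Z E s) :=
  hasSum_ideal E (fun n => (n : ℝ) ^ (-s)) (fun n => by positivity) (Z_summable E s hs)

/-- the weight as a monoid hom -/
noncomputable def wHom (s : ℝ) : Ideal (𝓞 E) →* ℝ where
  toFun := w E s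
  map_one' := by simp [w]
  map_mul' I J := by
    simp only [w, map_mul, Nat.cast_mul]
    exact Real.mul_rpow (Nat.cast_nonneg _) (Nat.cast_nonneg _)

/-- the degree one prime sum -/
noncomputable def D (s : ℝ) : ℝ :=
  ∑' n, (cnt E n : ℝ) * (if n.Prime then (n : ℝ) ^ (-s) else 0)

lemma D_summable (s : ℝ) (hs : 1 < s) :
    Summable fun n => (cnt E n : ℝ) * (if n.Prime then (n : ℝ) ^ (-s) else 0) := by
  refine Summable.of_nonneg_of_le (fun n => by split_ifs <;> positivity) (fun n => ?_)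
    (Z_summable E s hs)
  split_ifs
  · exact le_rfl
  · rw [mul_zero]; positivity

lemma hasSum_D (s : ℝ) (hs : 1 < s) :
    HasSum (fun I : Ideal (𝓞 E) => if (absNorm I).Prime then w E s I else 0) (D E s) :=
  hasSum_ideal E (fun n => if n.Prime then (n : ℝ) ^ (-s) else 0)
    (fun n => by split_ifs <;> positivity) (D_summable E s hs)

lemma two_le_absNorm {P : Ideal (𝓞 E)} (hP : Prime P) : 2 ≤ absNorm P := by
  have h0 : absNorm P ≠ 0 := by
    rw [Ne, absNorm_eq_zero_iff]; exact hP.ne_zero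
  have h1 : absNorm P ≠ 1 := by
    rw [Ne, absNorm_eq_one_iff]; intro h; exact hP.not_isUnit (by rw [h, ← one_eq_top]; exact isUnit_one)
  omega

lemma w_le_half {P : Ideal (𝓞 E)} (hP : Prime P) {s : ℝ} (hs : 1 < s) : w E s P ≤ 1 / 2 := by
  have h2 : (2 : ℝ) ≤ absNorm P := by exact_mod_cast two_le_absNorm E hP
  calc w E s P ≤ (absNorm P : ℝ) ^ (-1 : ℝ) := by
        unfold w
        exact Real.rpow_le_rpow_of_exponent_le (by linarith) (by linarith)
    _ ≤ 1 / 2 := by
        rw [Real.rpow_neg_one, one_div]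
        exact inv_anti₀ (by norm_num) h2

lemma w_sq_le (I : Ideal (𝓞 E)) {s : ℝ} (hs : 1 < s) : w E s I ^ 2 ≤ w E 2 I := by
  unfold w
  rcases Nat.eq_zero_or_pos (absNorm I) with h | h
  · rw [h]; simp [Real.zero_rpow (show -s ≠ 0 by linarith)]
  · have h1 : (1 : ℝ) ≤ absNorm I := by exact_mod_cast h
    rw [← Real.rpow_natCast, ← Real.rpow_mul (by linarith)]
    exact Real.rpow_le_rpow_of_exponent_le h1 (by push_cast; linarith)

lemma prod_le_Z (s : ℝ) (hs : 1 < s) (T : Finset (Ideal (𝓞 E))) (hT : ∀ P ∈ T, Prime P) :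
    ∏ P ∈ T, (1 + w E s P) ≤ Z E s := by
  classical
  rw [Finset.prod_one_add]
  have h1 : ∀ t ∈ T.powerset, ∏ P ∈ t, w E s P = w E s (∏ P ∈ t, P) := fun t _ =>
    (map_prod (wHom E s) (fun P => P) t).symm
  rw [Finset.sum_congr rfl h1, ← Finset.sum_image (f := w E s)]
  · exact sum_le_hasSum _ (fun I _ => w_nonneg E s I) (hasSum_w E s hs)
  · intro t ht t' ht' h
    have key : ∀ t : Finset (Ideal (𝓞 E)), t ⊆ T →
        UniqueFactorizationMonoid.normalizedFactors (∏ P ∈ t, P) = t.val := by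
      intro t ht
      have : ∏ P ∈ t, P = t.val.prod := (Finset.prod_val t).symm
      rw [this, UniqueFactorizationMonoid.normalizedFactors_prod_of_prime]
      intro P hP
      exact hT P (ht hP)
    have e1 := key t (Finset.mem_powerset.1 ht)
    have e2 := key t' (Finset.mem_powerset.1 ht')
    simp only at h
    rw [h, e2] at e1
    exact Finset.val_injective e1.symm

lemma D_le (s : ℝ) (hs : 1 < s) : D E s ≤ Real.log (Z E s) + Z E 2 := by
  classical
  refine hasSum_le_of_sum_le (hasSum_D E s hs) fun A => ?_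
  rw [← Finset.sum_filter]
  set T := A.filter (fun I => (absNorm I).Prime) with hTdef
  have hT : ∀ P ∈ T, Prime P := by
    intro P hP
    have h := (Finset.mem_filter.1 hP).2
    exact UniqueFactorizationMonoid.irreducible_iff_prime.mp
      (irreducible_of_irreducible_absNorm h)
  have h1 := prod_le_Z E s hs T hT
  have h2 : ∑ P ∈ T, Real.log (1 + w E s P) ≤ Real.log (Z E s) := by
    rw [← Real.log_prod (fun P _ => by have := w_nonneg E s P; positivity)]
    exact Real.log_le_log (Finset.prod_pos fun P _ => by have := w_nonneg E s P; positivity) h1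
  have h3 : ∑ P ∈ T, w E 2 P ≤ Z E 2 :=
    sum_le_hasSum _ (fun I _ => w_nonneg E 2 I) (hasSum_w E 2 (by norm_num))
  have h4 : ∑ P ∈ T, w E s P ≤ ∑ P ∈ T, (Real.log (1 + w E s P) + w E 2 P) := by
    refine Finset.sum_le_sum fun P _ => ?_
    have hw := w_nonneg E s P
    have h5 := w_sq_le E P hs
    have h6 := Real.one_sub_inv_le_log_of_pos (show 0 < 1 + w E s P by positivity)
    have h7 : w E s P - w E s P ^ 2 ≤ 1 - (1 + w E s P)⁻¹ := by
      rw [inv_eq_one_div, le_sub_comm, div_le_iff₀ (by positivity)]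
      nlinarith [pow_nonneg hw 3]
    linarith
  rw [Finset.sum_add_distrib] at h4
  linarith

lemma sum_le_prod (s : ℝ) (hs : 1 < s) (A : Finset (Ideal (𝓞 E))) (hA : ∀ I ∈ A, I ≠ 0) :
    ∃ T : Finset (Ideal (𝓞 E)), (∀ P ∈ T, Prime P) ∧
      ∑ I ∈ A, w E s I ≤ ∏ P ∈ T, (1 - w E s P)⁻¹ := by
  classical
  open UniqueFactorizationMonoid in
  let T : Finset (Ideal (𝓞 E)) := A.biUnion fun I => (normalizedFactors I).toFinset
  have hT : ∀ P ∈ T, Prime P := by
    intro P hP
    obtain ⟨I, _, hI⟩ := Finset.mem_biUnion.1 hP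
    exact UniqueFactorizationMonoid.prime_of_normalized_factor P (Multiset.mem_toFinset.1 hI)
  refine ⟨T, hT, ?_⟩
  let v : Ideal (𝓞 E) → T → ℕ := fun I P =>
    (UniqueFactorizationMonoid.normalizedFactors I).count P.1
  let B : ℕ := A.sup (fun I => (UniqueFactorizationMonoid.normalizedFactors I).card) + 1
  have hI : ∀ I ∈ A, I = ∏ P : T, P.1 ^ v I P := by
    intro I hI
    have h1 := Ideal.prod_normalizedFactors_eq_self (hA I hI)
    have h2 : (UniqueFactorizationMonoid.normalizedFactors I).toFinset ⊆ T :=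
      Finset.subset_biUnion_of_mem
        (fun I => (UniqueFactorizationMonoid.normalizedFactors I).toFinset) hI
    rw [Finset.prod_multiset_count_of_subset _ _ h2] at h1
    exact h1.symm.trans (Finset.prod_coe_sort T fun P =>
      P ^ (UniqueFactorizationMonoid.normalizedFactors I).count P).symm
  have hw : ∀ I ∈ A, w E s I = ∏ P : T, w E s P.1 ^ v I P := by
    intro I hI'
    conv_lhs => rw [hI I hI']
    change wHom E s _ = _
    rw [map_prod]
    simp only [map_pow]
    rfl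
  have hinj : Set.InjOn v A := by
    intro I hI1 J hJ1 h
    rw [hI I hI1, hI J hJ1, h]
  calc ∑ I ∈ A, w E s I = ∑ I ∈ A, ∏ P : T, w E s P.1 ^ v I P := Finset.sum_congr rfl hw
    _ = ∑ u ∈ A.image v, ∏ P : T, w E s P.1 ^ u P :=
        (Finset.sum_image (f := fun u : T → ℕ => ∏ P : T, w E s P.1 ^ u P) hinj).symm
    _ ≤ ∑ u ∈ Fintype.piFinset (fun _ : T => Finset.range B), ∏ P : T, w E s P.1 ^ u P := by
        refine Finset.sum_le_sum_of_subset_of_nonneg ?_ fun u _ _ =>
          Finset.prod_nonneg fun P _ => pow_nonneg (w_nonneg E s _) _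
        intro u hu
        obtain ⟨I, hI1, rfl⟩ := Finset.mem_image.1 hu
        rw [Fintype.mem_piFinset]
        intro P
        rw [Finset.mem_range]
        have h1 := Multiset.count_le_card P.1 (UniqueFactorizationMonoid.normalizedFactors I)
        have h2 := Finset.le_sup
          (f := fun I => (UniqueFactorizationMonoid.normalizedFactors I).card) hI1
        simp only [v, B] at *
        omega
    _ = ∏ P : T, ∑ k ∈ Finset.range B, w E s P.1 ^ k :=
        (Finset.prod_univ_sum (fun _ : T => Finset.range B) (fun P k => w E s P.1 ^ k)).symm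
    _ ≤ ∏ P : T, (1 - w E s P.1)⁻¹ := by
        refine Finset.prod_le_prod (fun P _ => Finset.sum_nonneg fun k _ =>
          pow_nonneg (w_nonneg E s _) _) fun P _ => ?_
        have h1 := w_le_half E (hT P.1 P.2) hs
        exact sum_le_hasSum _ (fun k _ => pow_nonneg (w_nonneg E s _) _)
          (hasSum_geometric_of_lt_one (w_nonneg E s _) (by linarith))
    _ = _ := Finset.prod_coe_sort T fun P => (1 - w E s P)⁻¹

lemma card_primesOver_le (q : Ideal ℤ) [q.IsPrime] (T : Finset (Ideal (𝓞 E)))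
    (hT : ∀ P ∈ T, P ∈ q.primesOver (𝓞 E)) : T.card ≤ Module.finrank ℤ (𝓞 E) := by
  classical
  have : Fintype (q.primesOver (𝓞 E)) := (Algebra.QuasiFinite.finite_primesOver q).fintype
  rw [← sum_ramification_inertia_eq_finrank q (𝓞 E)]
  calc T.card ≤ Fintype.card (q.primesOver (𝓞 E)) := by
        rw [← Fintype.card_coe]
        exact Fintype.card_le_of_injective (fun P => ⟨P.1, hT P.1 P.2⟩)
          (fun a b h => Subtype.ext (by simpa using h))
    _ = ∑ _P : q.primesOver (𝓞 E), 1 := by simp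
    _ ≤ _ := by
        refine Finset.sum_le_sum fun P _ => ?_
        have := P.2.1
        have := P.2.2
        exact Nat.mul_pos (ramificationIdx_pos P.1 ℤ) (inertiaDeg_pos P.1 ℤ)

lemma sum_nonprime_le (s : ℝ) (hs : 1 < s) (T : Finset (Ideal (𝓞 E)))
    (hT : ∀ P ∈ T, Prime P ∧ ¬ (absNorm P).Prime) :
    ∑ P ∈ T, w E s P ≤ Module.finrank ℤ (𝓞 E) * ∑' n : ℕ, 1 / (n : ℝ) ^ 2 := by
  classical
  let q : Ideal (𝓞 E) → ℕ := fun P => absNorm (P.under ℤ)
  have h1 : ∀ P ∈ T, w E s P ≤ 1 / (q P : ℝ) ^ 2 := by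
    intro P hP
    obtain ⟨h2, h3⟩ := hT P hP
    have : P.IsPrime := Ideal.isPrime_of_prime h2
    have : NeZero P := ⟨h2.ne_zero⟩
    have h4 : (q P).Prime := Nat.absNorm_under_prime P
    have h5 : q P ^ P.inertiaDeg ℤ = absNorm P := absNorm_pow_inertiaDeg (P.under ℤ) P
    have h6 := inertiaDeg_pos P ℤ
    have h7 : P.inertiaDeg ℤ ≠ 1 := fun h => h3 (by rw [← h5, h, pow_one]; exact h4)
    have h8 : q P ^ 2 ≤ absNorm P := by
      rw [← h5]; exact Nat.pow_le_pow_right h4.pos (by omega)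
    have h9 : (2 : ℝ) ≤ absNorm P := by exact_mod_cast two_le_absNorm E h2
    have h10 : (0 : ℝ) < q P := by exact_mod_cast h4.pos
    calc w E s P ≤ (absNorm P : ℝ) ^ (-1 : ℝ) := by
          unfold w
          exact Real.rpow_le_rpow_of_exponent_le (by linarith) (by linarith)
      _ ≤ _ := by
          rw [Real.rpow_neg_one, one_div]
          exact inv_anti₀ (by positivity) (by exact_mod_cast h8)
  calc ∑ P ∈ T, w E s P ≤ ∑ P ∈ T, 1 / (q P : ℝ) ^ 2 := Finset.sum_le_sum h1
    _ = ∑ n ∈ T.image q, ∑ P ∈ T with q P = n, 1 / (q P : ℝ) ^ 2 :=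
        (Finset.sum_fiberwise_of_maps_to (fun P hP => Finset.mem_image_of_mem q hP) _).symm
    _ ≤ ∑ n ∈ T.image q, Module.finrank ℤ (𝓞 E) * (1 / (n : ℝ) ^ 2) := by
        refine Finset.sum_le_sum fun n hn => ?_
        rw [Finset.sum_congr rfl (fun P hP => by rw [(Finset.mem_filter.1 hP).2]),
          Finset.sum_const, nsmul_eq_mul]
        gcongr
        obtain ⟨P₀, hP₀, rfl⟩ := Finset.mem_image.1 hn
        have : P₀.IsPrime := Ideal.isPrime_of_prime (hT P₀ hP₀).1
        refine card_primesOver_le E (P₀.under ℤ) _ fun P hP => ?_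
        obtain ⟨h2, h3⟩ := Finset.mem_filter.1 hP
        refine ⟨Ideal.isPrime_of_prime (hT P h2).1, ⟨?_⟩⟩
        rw [← Int.ideal_span_absNorm_eq_self (P₀.under ℤ), ← Int.ideal_span_absNorm_eq_self (P.under ℤ)]
        exact congrArg (fun n : ℕ => Ideal.span {(n : ℤ)}) h3.symm
    _ ≤ _ := by
        rw [← Finset.mul_sum]
        gcongr
        exact (Real.summable_one_div_nat_pow.2 (by norm_num)).sum_le_tsum _
          fun n _ => by positivity

lemma log_Z_le (s : ℝ) (hs : 1 < s) :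
    Z E s ≤ Real.exp (D E s +
      (Module.finrank ℤ (𝓞 E) * ∑' n : ℕ, 1 / (n : ℝ) ^ 2 + 2 * Z E 2)) := by
  classical
  refine hasSum_le_of_sum_le (hasSum_w E s hs) fun A => ?_
  have h0 : ∑ I ∈ A, w E s I = ∑ I ∈ A.erase 0, w E s I := by
    rw [Finset.sum_erase]
    simp [w, Real.zero_rpow (show -s ≠ 0 by linarith)]
  obtain ⟨T, hT, h1⟩ := sum_le_prod E s hs (A.erase 0) fun I hI => Finset.ne_of_mem_erase hI
  rw [h0]
  refine h1.trans ?_
  have h2 : ∏ P ∈ T, (1 - w E s P)⁻¹ ≤ ∏ P ∈ T, Real.exp (w E s P + 2 * w E 2 P) := by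
    refine Finset.prod_le_prod (fun P hP => ?_) fun P hP => ?_
    · have := w_le_half E (hT P hP) hs
      exact inv_nonneg.2 (by linarith)
    · have h3 := w_le_half E (hT P hP) hs
      have h4 := w_nonneg E s P
      have h5 := w_sq_le E P hs
      refine le_trans ?_ (Real.add_one_le_exp _)
      rw [inv_eq_one_div, div_le_iff₀ (by linarith)]
      nlinarith [mul_nonneg h4 h4, mul_nonneg (mul_nonneg h4 h4) (sub_nonneg.2 h3),
        mul_nonneg (sub_nonneg.2 h5) (sub_nonneg.2 h3)]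
  refine h2.trans ?_
  rw [← Real.exp_sum, Real.exp_le_exp, Finset.sum_add_distrib, ← Finset.mul_sum,
    ← Finset.sum_filter_add_sum_filter_not T (fun P => (absNorm P).Prime)]
  have h3 : ∑ P ∈ T, w E 2 P ≤ Z E 2 :=
    sum_le_hasSum _ (fun I _ => w_nonneg E 2 I) (hasSum_w E 2 (by norm_num))
  have h4 := sum_nonprime_le E s hs (T.filter fun P => ¬ (absNorm P).Prime) fun P hP =>
    ⟨hT P (Finset.mem_filter.1 hP).1, (Finset.mem_filter.1 hP).2⟩
  have h5 : ∑ P ∈ T with (absNorm P).Prime, w E s P ≤ D E s := by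
    rw [Finset.sum_filter]
    exact sum_le_hasSum _ (fun I _ => by split_ifs; exacts [w_nonneg E s I, le_rfl])
      (hasSum_D E s hs)
  linarith

theorem D_asymp : (fun s : ℝ => D E s + Real.log (s - 1)) =O[𝓝[>] 1] fun _ => (1 : ℝ) := by
  have hρ := dedekindZeta_residue_pos E
  have h1 : Tendsto (fun s : ℝ => Real.log ((s - 1) * Z E s)) (𝓝[>] 1)
      (𝓝 (Real.log (dedekindZeta_residue E))) := (Z_tendsto E).log hρ.ne'
  have h2 := h1.isBigO_one ℝ
  set C := Module.finrank ℤ (𝓞 E) * ∑' n : ℕ, 1 / (n : ℝ) ^ 2 + 2 * Z E 2 with hC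
  have h3 : (fun s : ℝ => D E s + Real.log (s - 1) - Real.log ((s - 1) * Z E s))
      =O[𝓝[>] 1] fun _ => (1 : ℝ) := by
    refine IsBigO.of_bound (|C| + |Z E 2|) ?_
    filter_upwards [self_mem_nhdsWithin, (Z_tendsto E).eventually (lt_mem_nhds hρ)] with s hs hs'
    have hs1 : 0 < s - 1 := sub_pos.2 hs
    have hZ : 0 < Z E s := by
      by_contra hc
      push Not at hc
      nlinarith
    rw [Real.log_mul hs1.ne' hZ.ne']
    have h4 := D_le E s hs
    have h5 := (Real.log_le_iff_le_exp hZ).2 (log_Z_le E s hs)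
    rw [← hC] at h5
    simp only [Real.norm_eq_abs, norm_one, mul_one]
    rw [abs_le]
    constructor
    · linarith [le_abs_self C, abs_nonneg (Z E 2)]
    · linarith [le_abs_self (Z E 2), abs_nonneg C]
  simpa using h3.add h2

end Pool.Agent.MP_d64882_nt
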