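import Mathlib
import Pool.Agent.MP_d64882_nt.Dict
import Pool.Agent.MP_d64882_nt.Zeta

open MulAction Subgroup Function NumberField Ideal Filter Topology Asymptotics

namespace Pool.Agent.MP_d64882_nt

/-- the sequence `a` has Dirichlet density `d` in a strong sense -/
def Dens (a : ℕ → ℝ) (d : ℝ) : Prop :=
  (∀ s : ℝ, 1 < s → Summable fun n => a n * (n : ℝ) ^ (-s)) ∧
    (fun s : ℝ => ∑' n, a n * (n : ℝ) ^ (-s) + d * Real.log (s - 1)) =O[𝓝[>] 1] fun _ => (1 : ℝ)

lemma Dens.add {a b : ℕ → ℝ} {d e : ℝ} (ha : Dens a d) (hb : Dens b e) :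
    Dens (fun n => a n + b n) (d + e) := by
  refine ⟨fun s hs => ?_, (ha.2.add hb.2).congr' ?_ EventuallyEq.rfl⟩
  · simpa [add_mul] using (ha.1 s hs).add (hb.1 s hs)
  · filter_upwards [self_mem_nhdsWithin] with s hs
    simp only [add_mul]
    rw [(ha.1 s hs).tsum_add (hb.1 s hs)]
    ring

lemma Dens.mul {a : ℕ → ℝ} {d : ℝ} (ha : Dens a d) (c : ℝ) :
    Dens (fun n => c * a n) (c * d) := by
  refine ⟨fun s hs => ?_, (ha.2.const_mul_left c).congr' ?_ EventuallyEq.rfl⟩
  · simpa [mul_assoc] using (ha.1 s hs).mul_left c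
  · filter_upwards [self_mem_nhdsWithin] with s hs
    simp only [mul_assoc]
    rw [tsum_mul_left]
    ring

lemma Dens.sub {a b : ℕ → ℝ} {d e : ℝ} (ha : Dens a d) (hb : Dens b e) :
    Dens (fun n => a n - b n) (d - e) := by
  simpa [sub_eq_add_neg] using ha.add (hb.mul (-1))

lemma dens_finite {a : ℕ → ℝ} (S : Finset ℕ) (h : ∀ n ∉ S, a n = 0) : Dens a 0 := by
  refine ⟨fun s _ => summable_of_ne_finset_zero (s := S) fun n hn => by simp [h n hn], ?_⟩
  refine IsBigO.of_bound (∑ n ∈ S, |a n|) ?_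
  filter_upwards [self_mem_nhdsWithin] with s hs
  have hs : 1 < s := hs
  rw [tsum_eq_sum (s := S) fun n hn => by simp [h n hn]]
  simp only [zero_mul, add_zero, Real.norm_eq_abs, norm_one, mul_one]
  refine (Finset.abs_sum_le_sum_abs _ _).trans (Finset.sum_le_sum fun n _ => ?_)
  rw [abs_mul]
  refine mul_le_of_le_one_right (abs_nonneg _) ?_
  rw [abs_of_nonneg (by positivity)]
  rcases Nat.eq_zero_or_pos n with rfl | hn
  · simp [Real.zero_rpow (show -s ≠ 0 by linarith)]
  · exact Real.rpow_le_one_of_one_le_of_nonpos (by exact_mod_cast hn) (by linarith)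

lemma Dens.congr {a b : ℕ → ℝ} {d : ℝ} (ha : Dens a d) (S : Finset ℕ)
    (h : ∀ n ∉ S, a n = b n) : Dens b d := by
  simpa using ha.add (dens_finite (a := fun n => b n - a n) S fun n hn => by simp [h n hn])

lemma Dens.eq_zero {d : ℝ} (h : Dens (fun _ => 0) d) : d = 0 := by
  by_contra hd
  have h1 : (fun s : ℝ => Real.log (s - 1)) =O[𝓝[>] 1] fun _ => (1 : ℝ) := by
    have := h.2.const_mul_left d⁻¹
    simpa [← mul_assoc, inv_mul_cancel₀ hd] using this
  have h2 : Tendsto (fun s : ℝ => Real.log (s - 1)) (𝓝[>] 1) atBot := by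
    refine Real.tendsto_log_nhdsGT_zero.comp ?_
    refine tendsto_nhdsWithin_iff.2 ⟨?_, ?_⟩
    · have : Tendsto (fun s : ℝ => s - 1) (𝓝 1) (𝓝 (1 - 1)) := tendsto_id.sub_const 1
      simpa using this.mono_left nhdsWithin_le_nhds
    · filter_upwards [self_mem_nhdsWithin] with s hs
      exact sub_pos.2 (show 1 < s from hs)
  obtain ⟨C, hC⟩ := h1.bound
  obtain ⟨s, h3, h4⟩ := (hC.and (h2.eventually (eventually_lt_atBot (-C)))).exists
  simp only [Real.norm_eq_abs, norm_one, mul_one] at h3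
  linarith [neg_abs_le (Real.log (s - 1))]

lemma dens_cnt (E : Type*) [Field E] [NumberField E] :
    Dens (fun n => if n.Prime then (cnt E n : ℝ) else 0) 1 := by
  have h : ∀ (s : ℝ) (n : ℕ), (if n.Prime then (cnt E n : ℝ) else 0) * (n : ℝ) ^ (-s)
      = (cnt E n : ℝ) * (if n.Prime then (n : ℝ) ^ (-s) else 0) := by
    intro s n; split_ifs <;> simp
  refine ⟨fun s hs => ?_, ?_⟩
  · simp only [h]; exact D_summable E s hs
  · simp only [h, one_mul]; exact D_asymp E

lemma OrbData.card_fixed {G Y P : Type*} [Group G] [MulAction G Y] {σ : G} {π : Y → P}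
    {f : P → ℕ} (h : OrbData σ π f) :
    Nat.card {y : Y // σ • y = y} = Nat.card {i // f i = 1} := by
  refine Nat.card_eq_of_bijective (fun y => ⟨π y.1, ?_⟩) ⟨?_, ?_⟩
  · rw [h.2.2, period_eq_one_iff]; exact y.2
  · rintro ⟨y, hy⟩ ⟨y', hy'⟩ h1
    obtain ⟨⟨τ, hτ⟩, h2⟩ := (h.2.1 y' y).1 (congrArg Subtype.val h1)
    refine Subtype.ext (h2.symm.trans ?_)
    exact (zpowers_le_of_mem (H := stabilizer G y') hy') hτ
  · rintro ⟨i, hi⟩
    obtain ⟨y, rfl⟩ := h.1 i
    rw [h.2.2, period_eq_one_iff] at hi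
    exact ⟨⟨y, hi⟩, rfl⟩

lemma card_smul_base {G Y : Type*} [Group G] [Finite G] [Finite Y] [MulAction G Y] (y₀ : Y)
    (ht : ∀ y, ∃ g : G, g • y₀ = y) (p : Y → Prop) :
    Nat.card {g : G // p (g • y₀)} = Nat.card {y // p y} * Nat.card (stabilizer G y₀) := by
  refine card_eq_mul_of_fibres (φ := fun g : {g : G // p (g • y₀)} => (⟨g.1 • y₀, g.2⟩ : {y // p y}))
    fun y => ?_
  obtain ⟨y, hy⟩ := y
  obtain ⟨g₀, rfl⟩ := ht y
  symm
  refine Nat.card_eq_of_bijective (fun h => ⟨⟨g₀ * h.1, ?_⟩, ?_⟩) ⟨?_, ?_⟩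
  · rw [mul_smul, h.2]; exact hy
  · refine Subtype.ext ?_
    change (g₀ * h.1) • y₀ = g₀ • y₀
    rw [mul_smul, h.2]
  · intro h h' e
    have : g₀ * h.1 = g₀ * h'.1 := congrArg (fun x => x.1.1) e
    exact Subtype.ext (mul_left_cancel this)
  · rintro ⟨⟨g, hg⟩, h⟩
    have h1 : g • y₀ = g₀ • y₀ := congrArg Subtype.val h
    refine ⟨⟨g₀⁻¹ * g, ?_⟩, ?_⟩
    · rw [mem_stabilizer_iff, mul_smul, h1, inv_smul_smul]
    · ext; simp

lemma cnt_prime (E : Type*) [Field E] [NumberField E] (p : ℕ) (hp : p.Prime) :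
    Nat.card {P : (span {(p : ℤ)}).primesOver (𝓞 E) // P.1.inertiaDeg ℤ = 1} = cnt E p := by
  refine Nat.card_eq_of_bijective (fun P => ⟨P.1.1, ?_⟩) ⟨?_, ?_⟩
  · have := P.1.2.1
    have := P.1.2.2
    rw [← pow_inertiaDeg p P.1.1, P.2, pow_one]
  · intro P P' h
    exact Subtype.ext (Subtype.ext (by simpa using h))
  · rintro ⟨I, hI⟩
    have h1 : I.IsPrime := isPrime_of_irreducible_absNorm (hI ▸ hp)
    have h2 : I.LiesOver (span {(p : ℤ)}) := by
      have := Fact.mk hp
      refine ⟨Ideal.IsMaximal.eq_of_le inferInstance (Ideal.IsPrime.ne_top inferInstance) ?_⟩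
      rw [span_singleton_le_iff_mem, under_def, Ideal.mem_comap, ← hI]
      simpa using absNorm_mem I
    refine ⟨⟨⟨I, h1, h2⟩, ?_⟩, rfl⟩
    have h3 := pow_inertiaDeg p I
    rw [hI] at h3
    exact Nat.pow_right_injective hp.two_le (h3.trans (pow_one p).symm)

lemma unram_of_not_mem (E : Type*) [Field E] [NumberField E] (p : ℕ) (hp : p.Prime)
    (h : p ∉ (discr E).natAbs.divisors) : Algebra.IsUnramifiedIn (𝓞 E) (span {(p : ℤ)}) := by
  rw [← not_dvd_discr_iff_isUnramifiedIn E (𝓞 E) (Nat.prime_iff_prime_int.1 hp)]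
  intro hd
  exact h (Nat.mem_divisors.2 ⟨Int.natCast_dvd.1 hd, Int.natAbs_ne_zero.2 (discr_ne_zero E)⟩)

variable {M : Type*} [Field M] [NumberField M] [IsGalois ℚ M]

open Classical in
/-- Frobenius: every cyclic subgroup is generated by a Frobenius element -/
theorem frobenius (γ : M ≃ₐ[ℚ] M) (S : Finset ℕ) :
    ∃ p : ℕ, p.Prime ∧ p ∉ S ∧ ∃ (Q : Ideal (𝓞 M))
      (_ : Q ∈ (span {(p : ℤ)}).primesOver (𝓞 M)) (σ : M ≃ₐ[ℚ] M), IsArithFrobAt ℤ σ Q ∧
        ∃ g, zpowers (g⁻¹ * σ * g) = zpowers γ := by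
  choose Q hQ σ hσ using exists_frob (M := M)
  let c : (M ≃ₐ[ℚ] M) → ℕ → ℝ := fun x p =>
    if h : p.Prime then Nat.card {g // g⁻¹ * σ p h * g = x} else 0
  let R : Finset (M ≃ₐ[ℚ] M) → Prop := fun A => Dens (fun p => ∑ x ∈ A, c x p) A.card
  have Rsub : ∀ A B, B ⊆ A → R A → R B → R (A \ B) := by
    intro A B h hA hB
    have := hA.sub hB
    simp only [R]
    rw [Finset.card_sdiff_of_subset h, Nat.cast_sub (Finset.card_le_card h)]
    simpa only [Finset.sum_sdiff_eq_sub h] using this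
  have Radd : ∀ A B, B ⊆ A → R (A \ B) → R B → R A := by
    intro A B h hA hB
    have := hA.add hB
    simp only [R]
    rw [← Finset.card_sdiff_add_card_eq_card h, Nat.cast_add]
    simpa only [Finset.sum_sdiff h] using this
  have RH : ∀ H : Subgroup (M ≃ₐ[ℚ] M), R (Finset.univ.filter (· ∈ H)) := by
    intro H
    let E := IntermediateField.fixedField H
    let τ₀ : Emb E M := Emb.mk (algebraMap E M)
    have hst : stabilizer (M ≃ₐ[ℚ] M) τ₀ = H := by
      rw [← IntermediateField.fixingSubgroup_fixedField H]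
      ext g
      rw [mem_stabilizer_iff, IntermediateField.mem_fixingSubgroup_iff]
      exact ⟨fun h x hx => congrArg (fun τ : Emb E M => τ.hom ⟨x, hx⟩) h,
        fun h => Emb.ext fun x => h x.1 x.2⟩
    have h1 := ((dens_cnt E).mul (Nat.card H)).congr (discr E).natAbs.divisors
      (b := fun p => ∑ x ∈ Finset.univ.filter (· ∈ H), c x p) (by
        intro p hp
        by_cases hp' : p.Prime
        · simp only [c, hp', if_true, dif_pos]
          have h2 := orbData_frob p hp' (Q p hp') (hQ p hp') (σ p hp') (hσ p hp') τ₀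
            (unram_of_not_mem E p hp' hp)
          rw [← cnt_prime E p hp', ← h2.card_fixed, ← hst, ← Nat.cast_mul, mul_comm,
            ← card_smul_base τ₀ (Emb.exists_smul τ₀), ← Nat.cast_sum]
          congr 1
          simp only [natCard_eq_filter]
          rw [Finset.card_eq_sum_card_fiberwise (f := fun g => g⁻¹ * σ p hp' * g)
            (t := Finset.univ.filter (· ∈ stabilizer (M ≃ₐ[ℚ] M) τ₀))]
          · refine Finset.sum_congr rfl fun x hx => ?_
            congr 1
            ext g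
            simp only [Finset.mem_filter, Finset.mem_univ, true_and, and_iff_right_iff_imp]
            rintro rfl
            have := (Finset.mem_filter.1 hx).2
            rwa [mem_stabilizer_iff, mul_smul, mul_smul, inv_smul_eq_iff] at this
          · intro g hg
            have := (Finset.mem_filter.1 hg).2
            refine Finset.mem_filter.2 ⟨Finset.mem_univ _, ?_⟩
            rwa [mem_stabilizer_iff, mul_smul, mul_smul, inv_smul_eq_iff]
        · simp [c, hp'])
    rw [mul_one] at h1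
    have h3 : (Finset.univ.filter (· ∈ H)).card = Nat.card H := (natCard_eq_filter _).symm
    simp only [R]
    rw [h3]
    exact h1
  let Gen : (M ≃ₐ[ℚ] M) → Finset (M ≃ₐ[ℚ] M) := fun x =>
    Finset.univ.filter fun y => zpowers y = zpowers x
  have Rcl : ∀ A : Finset (M ≃ₐ[ℚ] M), (∀ x ∈ A, Gen x ⊆ A ∧ R (Gen x)) → R A := by
    intro A
    induction A using Finset.strongInduction with
    | H A ih =>
      intro hA
      rcases A.eq_empty_or_nonempty with rfl | ⟨x, hx⟩
      · simpa [R] using dens_finite (a := fun _ => 0) ∅ fun _ _ => rfl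
      · refine Radd A (Gen x) (hA x hx).1 (ih _ ?_ fun y hy => ?_) (hA x hx).2
        · exact Finset.sdiff_ssubset (hA x hx).1 ⟨x, by simp [Gen]⟩
        · obtain ⟨h1, h2⟩ := Finset.mem_sdiff.1 hy
          refine ⟨fun z hz => Finset.mem_sdiff.2 ⟨(hA y h1).1 hz, fun h3 => h2 ?_⟩, (hA y h1).2⟩
          simp only [Gen, Finset.mem_filter, Finset.mem_univ, true_and] at hz h3 ⊢
          rw [← hz, h3]
  have RGen : ∀ n, ∀ x : M ≃ₐ[ℚ] M, Nat.card (zpowers x) = n → R (Gen x) := by
    intro n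
    induction n using Nat.strong_induction_on with
    | _ n ih =>
      rintro x rfl
      have h1 : Gen x ⊆ Finset.univ.filter (· ∈ zpowers x) := by
        intro y hy
        simp only [Gen, Finset.mem_filter, Finset.mem_univ, true_and] at hy ⊢
        rw [← hy]; exact mem_zpowers y
      have h2 := Rsub _ _ Finset.sdiff_subset (RH (zpowers x))
        (Rcl (Finset.univ.filter (· ∈ zpowers x) \ Gen x) fun y hy => ?_)
      · rwa [Finset.sdiff_sdiff_eq_self h1] at h2
      · simp only [Gen, Finset.mem_sdiff, Finset.mem_filter, Finset.mem_univ, true_and] at hy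
        refine ⟨fun z hz => ?_, ih _ ?_ y rfl⟩
        · simp only [Gen, Finset.mem_sdiff, Finset.mem_filter, Finset.mem_univ, true_and] at hz ⊢
          refine ⟨zpowers_le_of_mem hy.1 (hz ▸ mem_zpowers z), by rw [hz]; exact hy.2⟩
        · have h3 : zpowers y ≤ zpowers x := zpowers_le_of_mem hy.1
          refine lt_of_le_of_ne (Subgroup.card_le_of_le h3) fun h4 => hy.2 ?_
          exact Subgroup.eq_of_le_of_card_ge h3 h4.ge
  by_contra hc
  push Not at hc
  have h1 := ((RGen _ γ rfl).congr S (b := fun _ => 0) fun p hp => ?_).eq_zero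
  · have : 0 < (Gen γ).card := Finset.card_pos.2 ⟨γ, by simp [Gen]⟩
    exact this.ne' (by exact_mod_cast h1)
  · refine Finset.sum_eq_zero fun x hx => ?_
    by_cases hp' : p.Prime
    · simp only [c, hp', dif_pos, Nat.cast_eq_zero]
      have : IsEmpty {g // g⁻¹ * σ p hp' * g = x} := ⟨fun g =>
        hc p hp' hp (Q p hp') (hQ p hp') (σ p hp') (hσ p hp') g.1 (by
          rw [g.2]; exact (Finset.mem_filter.1 hx).2)⟩
      exact Nat.card_of_isEmpty
    · simp [c, hp']

end Pool.Agent.MP_d64882_nt
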