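import Mathlib
import Pool.Agent.MP_d64882_nt.Orb

open MulAction Subgroup Function Equiv

namespace Pool.Agent.MP_d64882_nt

variable {G : Type*} [Group G] {X Y : Type*} [MulAction G X] [MulAction G Y]

lemma even_lift [Finite X] {l : ℕ} (ρ : G →* Perm (Fin l)) (hρ : Surjective ρ) (hl5 : 5 ≤ l)
    (hlX : Nat.card X < l) (t : Perm (Fin l)) (ht : Perm.sign t = 1) :
    ∃ k : G, (∀ x : X, k • x = x) ∧ ρ k = t := by
  classical
  let N : Subgroup (Perm (Fin l)) := (toPermHom G X).ker.map ρ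
  have : N.Normal := Subgroup.Normal.map inferInstance ρ hρ
  have hN : Nontrivial N := by
    rw [Subgroup.nontrivial_iff_ne_bot]
    intro hb
    choose s hs using hρ
    have hinj : Injective fun t => toPermHom G X (s t) := by
      intro t t' h
      have h1 : (s t)⁻¹ * s t' ∈ (toPermHom G X).ker := by
        rw [MonoidHom.mem_ker, map_mul, map_inv, inv_mul_eq_one]; exact h
      have h2 : ρ ((s t)⁻¹ * s t') ∈ N := mem_map_of_mem ρ h1
      rwa [hb, mem_bot, map_mul, map_inv, inv_mul_eq_one, hs, hs] at h2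
    have h3 := Nat.card_le_card_of_injective _ hinj
    have := Fintype.ofFinite X
    rw [Nat.card_eq_fintype_card, Nat.card_eq_fintype_card, Fintype.card_perm, Fintype.card_perm,
      Fintype.card_fin, ← Nat.card_eq_fintype_card] at h3
    have h4 : (Nat.card X).factorial ≤ (l - 1).factorial := Nat.factorial_le (by omega)
    have h5 : (l - 1).factorial < l.factorial := (Nat.factorial_lt (by omega)).2 (by omega)
    omega
  have h1 := Perm.alternatingGroup_le_of_normal (by simpa using hl5) hN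
    (Perm.mem_alternatingGroup.2 ht)
  obtain ⟨k, hk, rfl⟩ := h1
  exact ⟨k, fun x => congrArg (fun e : Perm X => e x) hk, rfl⟩

theorem cov_induce [Finite G] [Finite X] [Finite Y] {L : Type*} (y₀ : Y)
    (ht : ∀ y, ∃ g : G, g • y₀ = y) (ρ : G →* Perm L) (ι : Y → L) (hι : Injective ι)
    (hlift : ∀ γ : G, ∃ w : G, (∀ x : X, w • x = γ • x) ∧ ∀ y, ρ w (ι y) = ι (γ • y))
    (hc : ∀ σ : G, Cov Y X σ) :
    ∃ U : Subgroup G, (∀ σ : G, Cov (G ⧸ U) X σ) ∧
      ∀ w, w ∈ U ↔ ∃ γ : G, γ • y₀ = y₀ ∧ (∀ x : X, w • x = γ • x) ∧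
        ∀ y, ρ w (ι y) = ι (γ • y) := by
  classical
  let R : Subgroup (G × G) :=
    { carrier := {u | (∀ x : X, u.1 • x = u.2 • x) ∧ ∀ y, ρ u.1 (ι y) = ι (u.2 • y)}
      mul_mem' := by
        rintro a b ⟨h1, h2⟩ ⟨h3, h4⟩
        exact ⟨fun x => by simp [mul_smul, h1, h3], fun y => by simp [mul_smul, h2, h4]⟩
      one_mem' := by simp
      inv_mem' := by
        rintro a ⟨h1, h2⟩
        refine ⟨fun x => ?_, fun y => ?_⟩
        · simp only [Prod.fst_inv, Prod.snd_inv]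
          rw [inv_smul_eq_iff, h1, smul_inv_smul]
        · simp only [Prod.fst_inv, Prod.snd_inv, map_inv]
          rw [Perm.inv_eq_iff_eq, h2, smul_inv_smul] }
  let Δ : Subgroup G := R.map (MonoidHom.fst G G)
  have hΔ : ∀ w, w ∈ Δ ↔ ∃ γ, (w, γ) ∈ R := fun w =>
    ⟨by rintro ⟨u, hu, rfl⟩; exact ⟨u.2, hu⟩, fun ⟨γ, h⟩ => ⟨_, h, rfl⟩⟩
  let U : Subgroup G := Δ ⊓ (stabilizer (Perm L) (ι y₀)).comap ρ
  have hU : ∀ w, w ∈ U ↔ w ∈ Δ ∧ ρ w (ι y₀) = ι y₀ := fun w => Iff.rfl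
  refine ⟨U, fun σ => ?_, fun w => ?_⟩
  swap
  · rw [hU, hΔ]
    constructor
    · rintro ⟨⟨γ, h1, h2⟩, h3⟩
      exact ⟨γ, hι ((h2 y₀).symm.trans h3), h1, h2⟩
    · rintro ⟨γ, h1, h2, h3⟩
      exact ⟨⟨γ, h2, h3⟩, by rw [h3, h1]⟩
  have key : ∀ g a b : G, a ∈ Δ → b ∈ Δ →
      (((g * a : G) : G ⧸ U) = (g * b : G) ↔ ρ a (ι y₀) = ρ b (ι y₀)) := by
    intro g a b ha hb
    rw [QuotientGroup.eq, mul_inv_rev, mul_assoc, inv_mul_cancel_left, hU, map_mul, map_inv,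
      Perm.mul_apply, Perm.inv_eq_iff_eq]
    exact ⟨fun h => h.2.symm, fun h => ⟨mul_mem (inv_mem ha) hb, h.symm⟩⟩
  have hd : ∀ y, ∃ d ∈ Δ, ρ d (ι y₀) = ι y := fun y => by
    obtain ⟨γ, rfl⟩ := ht y
    obtain ⟨w, hw⟩ := hlift γ
    exact ⟨w, (hΔ w).2 ⟨γ, hw⟩, hw.2 y₀⟩
  choose d hd1 hd2 using hd
  let π : G ⧸ U → G ⧸ Δ := quotientMapOfLE inf_le_left
  have hπ0 : ∀ g : G, π g = g := fun g => rfl
  have hπ : ∀ (c : G) q, π (c • q) = c • π q := fun c q => by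
    induction q using QuotientGroup.induction_on; rfl
  let e : G ⧸ Δ → Y → G ⧸ U := fun z y => (z.out * d y : G)
  have he1 : ∀ z, Injective (e z) := fun z y y' h => by
    have := (key _ _ _ (hd1 y) (hd1 y')).1 h
    rw [hd2, hd2] at this
    exact hι this
  have he2 : ∀ z y, π (e z y) = z := fun z y => by
    rw [hπ0, QuotientGroup.mk_mul_of_mem _ (hd1 y), QuotientGroup.out_eq']
  have he3 : ∀ z q, π q = z → ∃ y, e z y = q := fun z q hq => by
    induction q using QuotientGroup.induction_on with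
    | H h =>
      rw [hπ0, ← QuotientGroup.out_eq' z, eq_comm, QuotientGroup.eq] at hq
      obtain ⟨γ, hγ⟩ := (hΔ _).1 hq
      refine ⟨γ • y₀, ?_⟩
      have := (key z.out _ _ (hd1 (γ • y₀)) hq).2 (by rw [hd2]; exact (hγ.2 y₀).symm)
      rwa [mul_inv_cancel_left] at this
  have he4 : ∀ z (c γ : G), (z.out⁻¹ * c * z.out, γ) ∈ R → ∀ y, c • e z y = e z (γ • y) := by
    intro z c γ h y
    have := (key z.out (z.out⁻¹ * c * z.out * d y) (d (γ • y))
      (mul_mem ((hΔ _).2 ⟨γ, h⟩) (hd1 y)) (hd1 _)).2 (by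
        rw [map_mul, Perm.mul_apply, hd2, hd2]; exact h.2 y)
    simp only [mul_assoc, mul_inv_cancel_left] at this
    exact this
  have hγ : ∀ z : G ⧸ Δ, ∃ γ, (z.out⁻¹ * σ ^ period σ z * z.out, γ) ∈ R := fun z => by
    rw [← hΔ, mul_assoc, ← QuotientGroup.eq, QuotientGroup.out_eq']
    have h0 : ((σ ^ period σ z * z.out : G) : G ⧸ Δ) = σ ^ period σ z • (z.out : G ⧸ Δ) := rfl
    rw [h0, QuotientGroup.out_eq', pow_period_smul]
  choose γ hγ using hγ
  choose φ hφ1 hφ2 using hc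
  have : Nonempty Y := ⟨y₀⟩
  obtain ⟨Φ, h1, h2⟩ := exists_equivariant (C := zpowers σ) (X := X) π (fun c q => hπ c q)
    (fun z q => z.out • φ (γ z) (invFun (e z) q)) (by
      rintro z ⟨_, k, rfl⟩ q hz hq
      obtain ⟨y, rfl⟩ := he3 z q hq
      change σ ^ k • z = z at hz
      obtain ⟨j, rfl⟩ := zpow_smul_eq_iff_period_dvd.1 hz
      have h3 := zpow_mem (hγ z) j
      have h4 : (z.out⁻¹ * σ ^ period σ z * z.out, γ z) ^ j
          = (z.out⁻¹ * σ ^ ((period σ z : ℤ) * j) * z.out, γ z ^ j) := by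
        refine Prod.ext ?_ rfl
        have := conj_zpow (a := z.out⁻¹) (b := σ ^ period σ z) (i := j)
        rw [inv_inv] at this
        rw [zpow_mul, zpow_natCast, ← this]
        rfl
      rw [h4] at h3
      change z.out • φ (γ z) (invFun (e z) (σ ^ ((period σ z : ℤ) * j) • e z y))
        = σ ^ ((period σ z : ℤ) * j) • z.out • φ (γ z) (invFun (e z) (e z y))
      rw [he4 z _ _ h3, leftInverse_invFun (he1 z), leftInverse_invFun (he1 z),
        equivariant_zpowers (hφ1 _) (zpow_mem_zpowers _ j), ← h3.1]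
      simp [mul_smul])
  have h3 : ∀ x, Nat.card {q // Φ q = x} = Nat.card (G ⧸ Δ) * (Nat.card Y / Nat.card X) := by
    intro x
    refine card_eq_mul_of_fibres (φ := fun q : {q // Φ q = x} => π q.1) fun z => ?_
    obtain ⟨c, z₀, h4, h5⟩ := h2 z
    have : Nonempty X := ⟨x⟩
    have h6 : Nat.card {y // φ (γ z₀) y = z₀.out⁻¹ • c⁻¹ • x} = Nat.card Y / Nat.card X := by
      rw [card_eq_mul_of_fibres (φ := φ (γ z₀)) fun x' => hφ2 _ x' (z₀.out⁻¹ • c⁻¹ • x),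
        Nat.mul_div_cancel_left _ Nat.card_pos]
    rw [← h6]
    symm
    have h7 : ∀ y, π (c • e z₀ y) = z := fun y => by
      refine (hπ c (e z₀ y)).trans ?_
      rw [he2]
      exact h4
    have h8 : ∀ y, Φ (c • e z₀ y) = c • z₀.out • φ (γ z₀) y := fun y => by
      rw [h5 _ (h7 y), inv_smul_smul, leftInverse_invFun (he1 z₀)]
    refine Nat.card_eq_of_bijective (fun y => ⟨⟨c • e z₀ y.1, ?_⟩, h7 _⟩) ⟨?_, ?_⟩
    · rw [h8, y.2]; simp
    · intro y y' h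
      have h9 : c • e z₀ y.1 = c • e z₀ y'.1 := congrArg (fun u => u.1.1) h
      exact Subtype.ext (he1 z₀ (MulAction.injective c h9))
    · rintro ⟨⟨q, hq1⟩, hq2⟩
      obtain ⟨y, hy⟩ := he3 z₀ (c⁻¹ • q) (by
        refine (hπ (c⁻¹ : zpowers σ) q).trans ?_
        change c⁻¹ • π q = z₀
        rw [inv_smul_eq_iff, h4]; exact hq2)
      have h9 : c • e z₀ y = q := by rw [hy, smul_inv_smul]
      refine ⟨⟨y, ?_⟩, Subtype.ext (Subtype.ext h9)⟩
      rw [eq_inv_smul_iff, eq_inv_smul_iff, ← h8, h9, hq1]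
  exact ⟨Φ, fun q => h1 ⟨σ, mem_zpowers σ⟩ q, fun x x' => by rw [h3, h3]⟩

theorem core [Finite G] [Finite X] [Finite Y] (y₀ : Y) (ht : ∀ y, ∃ g : G, g • y₀ = y) {l : ℕ}
    (ρ : G →* Perm (Fin l)) (hρ : Surjective ρ) (hl : Nat.card Y + 2 ≤ l) (hl5 : 5 ≤ l)
    (hlX : Nat.card X < l) (hc : ∀ σ : G, Cov Y X σ)
    (hf : ∀ x : X, ∃ u : G, u • y₀ = y₀ ∧ u • x ≠ x) :
    ∃ U : Subgroup G, (∀ σ : G, Cov (G ⧸ U) X σ) ∧ (∀ x : X, ∃ u ∈ U, u • x ≠ x) ∧
      ∃ H : Subgroup G, (∀ g : G, ∃ h ∈ H, ∀ x : X, h • x = g • x) ∧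
        ∀ h ∈ H, (∀ x : X, h • x = x) → ∀ g : G, g⁻¹ * h * g ∈ U := by
  classical
  have hev := even_lift (X := X) ρ hρ hl5 hlX
  have := Fintype.ofFinite Y
  obtain ⟨j⟩ : Nonempty (Y ⊕ Bool ↪ Fin l) := Function.Embedding.nonempty_of_card_le (by
    simpa [Nat.card_eq_fintype_card] using hl)
  let ι : Y ↪ Fin l := Function.Embedding.inl.trans j
  let τ : Perm (Fin l) := swap (j (Sum.inr true)) (j (Sum.inr false))
  have hτ1 : Perm.sign τ = -1 := Perm.sign_swap (by simp)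
  have hτ2 : ∀ y, τ (ι y) = ι y := fun y => swap_apply_of_ne_of_ne (by simp [ι]) (by simp [ι])
  have hτ3 : τ * τ = 1 := swap_mul_self _ _
  have hadj : ∀ (g : G) (s : Perm (Fin l)), Perm.sign s = Perm.sign (ρ g) →
      ∃ w : G, (∀ x : X, w • x = g • x) ∧ ρ w = s := fun g s hs => by
    obtain ⟨k, hk1, hk2⟩ := hev ((ρ g)⁻¹ * s) (by rw [map_mul, map_inv, hs, inv_mul_cancel])
    exact ⟨g * k, fun x => by rw [mul_smul, hk1], by rw [map_mul, hk2, mul_inv_cancel_left]⟩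
  have hlift : ∀ γ : G, ∃ w : G, (∀ x : X, w • x = γ • x) ∧ ∀ y, ρ w (ι y) = ι (γ • y) := by
    intro γ
    let s : Perm (Fin l) := Perm.viaEmbedding (toPerm γ : Perm Y) ι
    have hs : ∀ y, s (ι y) = ι (γ • y) := fun y => Perm.viaEmbedding_apply _ _ _
    by_cases h : Perm.sign s = Perm.sign (ρ γ)
    · obtain ⟨w, h1, h2⟩ := hadj γ s h
      exact ⟨w, h1, fun y => by rw [h2, hs]⟩
    · obtain ⟨w, h1, h2⟩ := hadj γ (s * τ) (by
        rw [map_mul, hτ1, mul_neg, mul_one]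
        exact (Int.units_ne_iff_eq_neg.1 (Ne.symm h)).symm)
      exact ⟨w, h1, fun y => by rw [h2, Perm.mul_apply, hτ2, hs]⟩
  obtain ⟨U, hU1, hU2⟩ := cov_induce y₀ ht ρ ι ι.injective hlift hc
  have hN : ∀ h : G, (∀ x : X, h • x = x) → ρ h = 1 → ∀ g : G, g⁻¹ * h * g ∈ U := by
    intro h h1 h2 g
    exact (hU2 _).2 ⟨1, by simp, fun x => by simp [mul_smul, h1], fun y => by simp [h2]⟩
  refine ⟨U, hU1, fun x => ?_, ?_⟩
  · obtain ⟨u, h1, h2⟩ := hf x
    obtain ⟨w, h3, h4⟩ := hlift u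
    exact ⟨w, (hU2 w).2 ⟨u, h1, h3, h4⟩, by rwa [h3]⟩
  by_cases hk : ∃ k : G, (∀ x : X, k • x = x) ∧ Perm.sign (ρ k) = -1
  · obtain ⟨k, hk1, hk2⟩ := hk
    refine ⟨ρ.ker, fun g => ?_, fun h h1 h2 => hN h h2 h1⟩
    rcases Int.units_eq_one_or (Perm.sign (ρ g)) with h | h
    · obtain ⟨w, h1, h2⟩ := hadj g 1 (by rw [h, map_one])
      exact ⟨w, h2, h1⟩
    · obtain ⟨w, h1, h2⟩ := hadj (g * k) 1 (by rw [map_mul, map_mul, h, hk2]; simp)
      exact ⟨w, h2, fun x => by rw [h1, mul_smul, hk1]⟩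
  · let H : Subgroup G :=
      { carrier := {h | ρ h = 1 ∨ ρ h = τ}
        mul_mem' := by
          rintro a b (ha | ha) (hb | hb) <;> simp [ha, hb, hτ3]
        one_mem' := by simp
        inv_mem' := by
          rintro a (ha | ha)
          · simp [ha]
          · right; rw [map_inv, ha, inv_eq_iff_mul_eq_one, hτ3] }
    refine ⟨H, fun g => ?_, fun h h1 h2 => hN h h2 ?_⟩
    · rcases Int.units_eq_one_or (Perm.sign (ρ g)) with h | h
      · obtain ⟨w, h1, h2⟩ := hadj g 1 (by rw [h, map_one])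
        exact ⟨w, Or.inl h2, h1⟩
      · obtain ⟨w, h1, h2⟩ := hadj g τ (by rw [h, hτ1])
        exact ⟨w, Or.inr h2, h1⟩
    · rcases h1 with h1 | h1
      · exact h1
      · exact absurd ⟨h, h2, by rw [h1, hτ1]⟩ hk

end Pool.Agent.MP_d64882_nt
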