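import Mathlib

open NumberField

namespace Pool.Agent.MP_d64882_nt

variable {A : Type} [Field A] [CharZero A]

/-- `K₂` is locally sub-`K₁`. -/
def LocallySub (K₂ K₁ : IntermediateField ℚ A) : Prop :=
  Module.finrank ℚ K₂ ∣ Module.finrank ℚ K₁ ∧
  ∀ p : ℕ, p.Prime →
    Algebra.IsUnramifiedIn (𝓞 K₁) (Ideal.span {(p : ℤ)}) →
    Algebra.IsUnramifiedIn (𝓞 K₂) (Ideal.span {(p : ℤ)}) →
    ∃ (r : (Ideal.span {(p : ℤ)}).primesOver (𝓞 K₂) → ℕ)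
      (e : ∀ i, Fin (r i) → ℕ)
      (b : (Ideal.span {(p : ℤ)}).primesOver (𝓞 K₁) ≃ Σ i, Fin (r i)),
      (∀ i j, 0 < e i j) ∧
      (∀ i, ∑ j, e i j = Module.finrank ℚ K₁ / Module.finrank ℚ K₂) ∧
      ∀ Q, Q.1.inertiaDeg ℤ = (b Q).1.1.inertiaDeg ℤ * e (b Q).1 (b Q).2

/-- `K₂` is a fake subfield of `K₁`. -/
def FakeSub (K₂ K₁ : IntermediateField ℚ A) : Prop :=
  LocallySub K₂ K₁ ∧ ∀ σ : A ≃ₐ[ℚ] A, ¬ K₂ ≤ K₁.map (σ : A →ₐ[ℚ] A)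

/-- For fields `Ω ≤ M`: some subgroup of `Gal(M/ℚ)` restricts bijectively onto `Gal(Ω/ℚ)`. -/
def SplitsOver (Ω M : IntermediateField ℚ A) (h : Ω ≤ M) : Prop :=
  ∃ H : Subgroup (M ≃ₐ[ℚ] M), ∀ g : Ω ≃ₐ[ℚ] Ω, ∃! s : M ≃ₐ[ℚ] M, s ∈ H ∧
    ∀ x : Ω, s (IntermediateField.inclusion h x) = IntermediateField.inclusion h (g x)

end Pool.Agent.MP_d64882_nt
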