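import Mathlib

open Polynomial Function

namespace Pool.Agent.MP_d64882_nt

/-- an integer polynomial with exactly two non-real roots -/
noncomputable def sp (n : ℕ) : ℤ[X] :=
  (X ^ 2 + C 4) * ∏ j ∈ Finset.range n, (X - C (2 * j : ℤ)) - C 2

lemma sp_aux_monic (n : ℕ) :
    ((X ^ 2 + C 4) * ∏ j ∈ Finset.range n, (X - C (2 * j : ℤ)) : ℤ[X]).Monic :=
  (monic_X_pow_add_C _ two_ne_zero).mul (monic_prod_of_monic _ _ fun _ _ => monic_X_sub_C _)

lemma sp_aux_natDegree (n : ℕ) :
    ((X ^ 2 + C 4) * ∏ j ∈ Finset.range n, (X - C (2 * j : ℤ)) : ℤ[X]).natDegree = n + 2 := by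
  rw [(monic_X_pow_add_C _ two_ne_zero).natDegree_mul
    (monic_prod_of_monic _ _ fun _ _ => monic_X_sub_C _), natDegree_X_pow_add_C,
    natDegree_finsetProd_X_sub_C_eq_card, Finset.card_range, add_comm]

lemma sp_natDegree (n : ℕ) : (sp n).natDegree = n + 2 := by
  rw [sp, natDegree_sub_C, sp_aux_natDegree]

lemma sp_monic (n : ℕ) : (sp n).Monic := by
  refine (sp_aux_monic n).sub_of_left (degree_C_le.trans_lt ?_)
  rw [← natDegree_pos_iff_degree_pos, sp_aux_natDegree]
  omega

lemma sp_aeval {A : Type*} [CommRing A] (n : ℕ) (x : A) :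
    aeval x (sp n) = (x ^ 2 + 4) * ∏ j ∈ Finset.range n, (x - 2 * j) - 2 := by
  simp [sp, map_ofNat]

lemma sp_irreducible (n : ℕ) (hn : 0 < n) : Irreducible (sp n) := by
  have h2 : (sp n).map (Int.castRingHom (ZMod 2)) = X ^ (n + 2) := by
    have e2 : (2 : (ZMod 2)[X]) = 0 := CharTwo.two_eq_zero
    have e4 : (4 : (ZMod 2)[X]) = 0 := by
      rw [show (4 : (ZMod 2)[X]) = 2 * 2 by norm_num, e2, mul_zero]
    have := sp_aeval n (X : (ZMod 2)[X])
    rw [e2, e4] at this
    simp only [add_zero, zero_mul, sub_zero, Finset.prod_const, Finset.card_range] at this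
    rw [add_comm, pow_add, ← this, aeval_def, ← eval_map, eval_map]
    rfl
  refine irreducible_of_eisenstein_criterion (P := Ideal.span {2})
    ((Ideal.span_singleton_prime two_ne_zero).2 Int.prime_two) ?_ ?_ ?_ ?_ (sp_monic n).isPrimitive
  · rw [(sp_monic n).leadingCoeff, Ideal.mem_span_singleton]; norm_num
  · intro k hk
    rw [degree_eq_natDegree (sp_monic n).ne_zero, sp_natDegree, Nat.cast_lt] at hk
    have := congrArg (coeff · k) h2
    simp only [coeff_map, coeff_X_pow, if_neg hk.ne, eq_intCast] at this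
    rw [Ideal.mem_span_singleton]
    exact (ZMod.intCast_zmod_eq_zero_iff_dvd _ 2).1 this
  · rw [← natDegree_pos_iff_degree_pos, sp_natDegree]; omega
  · rw [coeff_zero_eq_aeval_zero, sp_aeval, Finset.prod_eq_zero (Finset.mem_range.2 hn) (by simp),
      Ideal.span_singleton_pow, Ideal.mem_span_singleton]
    norm_num

lemma sp_root (n i : ℕ) (hi : i < n) :
    ∃ x : ℝ, 2 * (i : ℝ) - 1 < x ∧ x < 2 * i + 1 ∧ aeval x (sp n) = 0 := by
  let h : ℤ → ℤ := fun a => ∏ j ∈ Finset.range n, (a - 2 * j)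
  have h1 : h (2 * i - 1) * h (2 * i + 1) < 0 := by
    simp only [h]
    rw [← Finset.prod_mul_distrib, ← Finset.mul_prod_erase _ _ (Finset.mem_range.2 hi)]
    refine mul_neg_of_neg_of_pos (by nlinarith) (Finset.prod_pos fun j hj => ?_)
    have h2 : (j : ℤ) ≠ i := by exact_mod_cast Finset.ne_of_mem_erase hj
    rcases lt_or_gt_of_ne h2 with h3 | h3
    · exact mul_pos (by omega) (by omega)
    · exact mul_pos_of_neg_of_neg (by omega) (by omega)
  have h2 : ∀ a : ℤ, aeval (a : ℝ) (sp n) = ((a : ℝ) ^ 2 + 4) * (h a : ℝ) - 2 := by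
    intro a
    simp [sp_aeval, h]
  have hpos : ∀ a : ℤ, 0 < h a → 0 < aeval (a : ℝ) (sp n) := by
    intro a ha
    have : (1 : ℝ) ≤ h a := by exact_mod_cast ha
    rw [h2]; nlinarith [sq_nonneg (a : ℝ)]
  have hneg : ∀ a : ℤ, h a < 0 → aeval (a : ℝ) (sp n) < 0 := by
    intro a ha
    have : (h a : ℝ) < 0 := by exact_mod_cast ha
    rw [h2]; nlinarith [sq_nonneg (a : ℝ)]
  have hc : Continuous fun x : ℝ => aeval x (sp n) := Polynomial.continuous_aeval _
  have hle : 2 * (i : ℝ) - 1 ≤ 2 * i + 1 := by linarith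
  rcases mul_neg_iff.1 h1 with ⟨h3, h4⟩ | ⟨h3, h4⟩
  · have h5 := hpos _ h3
    have h6 := hneg _ h4
    push_cast at h5 h6
    obtain ⟨x, hx, hx'⟩ := intermediate_value_Ioo' hle hc.continuousOn ⟨h6, h5⟩
    exact ⟨x, hx.1, hx.2, hx'⟩
  · have h5 := hneg _ h3
    have h6 := hpos _ h4
    push_cast at h5 h6
    obtain ⟨x, hx, hx'⟩ := intermediate_value_Ioo hle hc.continuousOn ⟨h5, h6⟩
    exact ⟨x, hx.1, hx.2, hx'⟩

lemma two_pow_le (s : Multiset ℂ) (hs : ∀ z ∈ s, z.im = 0) :
    (2 : ℝ) ^ s.card ≤ ‖(s.map (2 * Complex.I - ·)).prod‖ := by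
  induction s using Multiset.induction_on with
  | empty => simp
  | cons a s ih =>
    rw [Multiset.map_cons, Multiset.prod_cons, norm_mul, Multiset.card_cons, pow_succ']
    have h1 := ih fun z hz => hs z (Multiset.mem_cons_of_mem hz)
    have h2 : (2 : ℝ) ≤ ‖2 * Complex.I - a‖ := by
      refine le_trans ?_ (Complex.im_le_norm _)
      simp [hs a (Multiset.mem_cons_self _ _)]
    gcongr

theorem exists_sym (N : ℕ) : ∃ l : ℕ, N ≤ l ∧ ∃ f : ℚ[X], f ≠ 0 ∧
    ∃ ρ : f.Gal →* Equiv.Perm (Fin l), Surjective ρ := by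
  obtain ⟨l, hl, hp⟩ := Nat.exists_infinite_primes (N + 3)
  obtain ⟨n, rfl⟩ : ∃ n, l = n + 2 := ⟨l - 2, by omega⟩
  let f : ℚ[X] := (sp n).map (Int.castRingHom ℚ)
  have hm : f.Monic := (sp_monic n).map _
  have hd : f.natDegree = n + 2 := by rw [(sp_monic n).natDegree_map, sp_natDegree]
  have hi : Irreducible f :=
    (IsPrimitive.Int.irreducible_iff_irreducible_map_cast (sp_monic n).isPrimitive).1
      (sp_irreducible n (by omega))
  have hev : ∀ {A : Type} [Field A] [Algebra ℚ A] (x : A), aeval x f = aeval x (sp n) :=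
    fun x => aeval_map_algebraMap ℚ x (sp n)
  have hC : Fintype.card (f.rootSet ℂ) = n + 2 := by
    rw [card_rootSet_eq_natDegree hi.separable (IsAlgClosed.splits _), hd]
  have hR : n ≤ Fintype.card (f.rootSet ℝ) := by
    choose r hr using fun i : Fin n => sp_root n i i.2
    have := Fintype.card_le_of_injective (fun i : Fin n => (⟨r i, by
      rw [mem_rootSet_of_ne hm.ne_zero, hev]; exact (hr i).2.2⟩ : f.rootSet ℝ)) (by
        intro i j h
        have h1 : r i = r j := congrArg Subtype.val h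
        have h2 := hr i
        have h3 := hr j
        have h4 : (i : ℝ) < j + 1 := by linarith [h2.1, h3.2.1]
        have h5 : (j : ℝ) < i + 1 := by linarith [h3.1, h2.2.1]
        have h6 : (i : ℕ) < j + 1 := by exact_mod_cast h4
        have h7 : (j : ℕ) < i + 1 := by exact_mod_cast h5
        exact Fin.ext (by omega))
    simpa using this
  have hR' : Fintype.card (f.rootSet ℝ) < Fintype.card (f.rootSet ℂ) := by
    refine Fintype.card_lt_of_injective_not_surjective (fun x => ⟨(x.1 : ℂ), by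
      have := x.2
      rw [mem_rootSet_of_ne hm.ne_zero] at this ⊢
      change aeval (algebraMap ℝ ℂ x.1) f = 0
      rw [aeval_algebraMap_apply, this, map_zero]⟩) ?_ ?_
    · intro x y h
      exact Subtype.ext (Complex.ofReal_injective (congrArg Subtype.val h))
    · intro hs
      have h1 := two_pow_le (f.map (algebraMap ℚ ℂ)).roots fun z hz => by
        obtain ⟨x, hx⟩ := hs ⟨z, by
          rw [mem_rootSet_of_ne hm.ne_zero, aeval_def, ← eval_map]
          exact (mem_roots (hm.map _).ne_zero).1 hz⟩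
        have : (x.1 : ℂ) = z := congrArg Subtype.val hx
        rw [← this, Complex.ofReal_im]
      rw [← (IsAlgClosed.splits _).eval_eq_prod_roots_of_monic (hm.map _),
        ← (IsAlgClosed.splits _).natDegree_eq_card_roots, hm.natDegree_map, hd, eval_map,
        ← aeval_def, hev, sp_aeval] at h1
      have h2 : (2 * Complex.I) ^ 2 + 4 = 0 := by
        rw [mul_pow, Complex.I_sq]; norm_num
      rw [h2] at h1
      simp only [zero_mul, zero_sub, norm_neg, Complex.norm_ofNat] at h1
      have h3 : (1 : ℝ) ≤ 2 ^ n := one_le_pow₀ (by norm_num)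
      rw [pow_add] at h1
      linarith
  have : Fact ((f.map (algebraMap ℚ ℂ)).Splits) := ⟨IsAlgClosed.splits _⟩
  have hb := Gal.galActionHom_bijective_of_prime_degree' hi (hd ▸ hp) hR' (by omega)
  let e : f.rootSet ℂ ≃ Fin (n + 2) := Fintype.equivFinOfCardEq hC
  exact ⟨n + 2, by omega, f, hm.ne_zero, e.permCongrHom.toMonoidHom.comp (Gal.galActionHom f ℂ),
    e.permCongrHom.surjective.comp hb.2⟩

end Pool.Agent.MP_d64882_nt
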