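import Mathlib
import Pool.Agent.MP_d64882_nt.Defs
import Pool.Agent.MP_d64882_nt.Frob
import Pool.Agent.MP_d64882_nt.Sym
import Pool.Agent.MP_d64882_nt.Core

open MulAction Subgroup Function NumberField IntermediateField

namespace Pool.Agent.MP_d64882_nt

lemma Cov.of_quotient {G Y X : Type*} [Group G] [MulAction G Y] [MulAction G X] (y₀ : Y)
    (ht : ∀ y, ∃ g : G, g • y₀ = y) (U : Subgroup G) (hU : ∀ g : G, g • y₀ = y₀ ↔ g ∈ U) {σ : G}
    (h : Cov (G ⧸ U) X σ) : Cov Y X σ := by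
  let e : G ⧸ U → Y := fun q => q.out • y₀
  have key : ∀ a b : G, ((a : G ⧸ U) = b) ↔ a • y₀ = b • y₀ := fun a b => by
    rw [QuotientGroup.eq, ← hU, mul_smul, inv_smul_eq_iff, eq_comm]
  have he : ∀ g : G, e g = g • y₀ := fun g => (key _ _).1 (QuotientGroup.out_eq' _)
  have hb : Bijective e := by
    constructor
    · intro a b hab
      rw [← QuotientGroup.out_eq' a, ← QuotientGroup.out_eq' b]
      exact (key _ _).2 hab
    · intro y
      obtain ⟨g, rfl⟩ := ht y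
      exact ⟨g, he g⟩
  refine h.congr (Equiv.ofBijective e hb).symm fun g y => ?_
  obtain ⟨q, rfl⟩ := (Equiv.ofBijective e hb).surjective y
  rw [Equiv.symm_apply_apply, Equiv.symm_apply_eq]
  induction q using QuotientGroup.induction_on with
  | H a =>
    change g • e a = e (g * a : G)
    rw [he, he, mul_smul]

lemma Emb.mem_range {E M : Type*} [Field E] [Field M] [NumberField E] [NumberField M]
    [IsGalois ℚ M] (τ : Emb E M) (m : M) (h : ∀ u : M ≃ₐ[ℚ] M, u • τ = τ → u m = m) :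
    ∃ e, τ.hom e = m := by
  have h1 : m ∈ fixedField (fixingSubgroup τ.hom.toRatAlgHom.fieldRange) := by
    rw [mem_fixedField_iff]
    intro u hu
    rw [IntermediateField.mem_fixingSubgroup_iff] at hu
    exact h u (Emb.ext fun x => hu _ ⟨x, rfl⟩)
  rwa [IsGalois.fixedField_fixingSubgroup] at h1

variable {A : Type} [Field A] [CharZero A]

/-- the inclusion as an embedding -/
def incl {E M : IntermediateField ℚ A} (h : E ≤ M) : Emb E M := Emb.mk (inclusion h).toRingHom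

lemma exists_res [Normal ℚ A] {E M : IntermediateField ℚ A} (h : E ≤ M) (hE : Normal ℚ E) :
    ∃ r : (M ≃ₐ[ℚ] M) →* (E ≃ₐ[ℚ] E), ∀ g x, inclusion h (r g x) = g (inclusion h x) := by
  let : Algebra E M := (inclusion h).toRingHom.toAlgebra
  have : IsScalarTower ℚ E M := IsScalarTower.of_algebraMap_eq' (Subsingleton.elim _ _)
  exact ⟨AlgEquiv.restrictNormalHom E, fun g x => AlgEquiv.restrictNormal_commutes g E x⟩

lemma exists_lift {E M : IntermediateField ℚ A} (h : E ≤ M) (hM : Normal ℚ M) (g : E ≃ₐ[ℚ] E) :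
    ∃ s : M ≃ₐ[ℚ] M, ∀ x, s (inclusion h x) = inclusion h (g x) := by
  let : Algebra E M := (inclusion h).toRingHom.toAlgebra
  have : IsScalarTower ℚ E M := IsScalarTower.of_algebraMap_eq' (Subsingleton.elim _ _)
  exact ⟨g.liftNormal M, fun x => AlgEquiv.liftNormal_commutes g M x⟩

lemma nc_le {E M : IntermediateField ℚ A} [NumberField M] (h : normalClosure ℚ E A ≤ M)
    (u : M ≃ₐ[ℚ] M) (hu : ∀ x : Emb E M, u • x = x) :
    normalClosure ℚ E A ≤ lift (fixedField (zpowers u)) := by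
  rw [normalClosure_le_iff]
  rintro f _ ⟨e, rfl⟩
  have hf : ∀ e, f.toRingHom e ∈ M := fun e => h (f.fieldRange_le_normalClosure ⟨e, rfl⟩)
  have h1 : u ⟨f e, hf e⟩ = ⟨f e, hf e⟩ :=
    congrArg (fun x : Emb E M => x.hom e) (hu (Emb.mk (f.toRingHom.codRestrict M hf)))
  refine (mem_lift (⟨f e, hf e⟩ : M)).2 ?_
  rw [mem_fixedField_iff]
  intro v hv
  exact (zpowers_le_of_mem (H := stabilizer (M ≃ₐ[ℚ] M) (⟨f e, hf e⟩ : M)) h1) hv

lemma emb_mem_nc {E M : IntermediateField ℚ A} (x : Emb E M) (e : E) :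
    (x.hom e : A) ∈ normalClosure ℚ E A :=
  ((algebraMap M A).comp x.hom).toRatAlgHom.fieldRange_le_normalClosure ⟨e, rfl⟩

lemma locallySub_iff {K F M : IntermediateField ℚ A} [NumberField K] [NumberField F]
    [NumberField M] [IsGalois ℚ M] (hK : K ≤ M) (hF : F ≤ M) :
    LocallySub K F ↔ ∀ σ : M ≃ₐ[ℚ] M, Cov (Emb F M) (Emb K M) σ := by
  have : Nonempty (Emb K M) := ⟨incl hK⟩
  have e1 : Nat.card (Emb K M) = Module.finrank ℚ K := (incl hK).card
  have e2 : Nat.card (Emb F M) = Module.finrank ℚ F := (incl hF).card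
  constructor
  · rintro ⟨-, h⟩ γ
    obtain ⟨p, hp, hS, Q, hQ, σ, hσ, g, hg⟩ :=
      frobenius γ ((discr K).natAbs.divisors ∪ (discr F).natAbs.divisors)
    rw [Finset.mem_union, not_or] at hS
    have h1 := unram_of_not_mem K p hp hS.1
    have h2 := unram_of_not_mem F p hp hS.2
    have h3 := (cov_iff_loc (orbData_frob p hp Q hQ σ hσ (incl hF) h2)
      (orbData_frob p hp Q hQ σ hσ (incl hK) h1)).2 (by rw [e1, e2]; exact h p hp h2 h1)
    exact (h3.conj g).of_mem_zpowers (hg ▸ mem_zpowers γ)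
  · intro h
    refine ⟨e1 ▸ e2 ▸ (h 1).dvd, fun p hp h2 h1 => ?_⟩
    obtain ⟨Q, hQ, σ, hσ⟩ := exists_frob (M := M) p hp
    have h3 := (cov_iff_loc (orbData_frob p hp Q hQ σ hσ (incl hF) h2)
      (orbData_frob p hp Q hQ σ hσ (incl hK) h1)).1 (h σ)
    rw [e1, e2] at h3
    exact h3

lemma notConj_iff [Normal ℚ A] {K F M : IntermediateField ℚ A} [NumberField K] [NumberField F]
    [NumberField M] [IsGalois ℚ M] (hK : K ≤ M) (hF : F ≤ M) :
    (∀ σ : A ≃ₐ[ℚ] A, ¬ K ≤ F.map (σ : A →ₐ[ℚ] A)) ↔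
      ∀ x : Emb K M, ∃ u : M ≃ₐ[ℚ] M, u • incl hF = incl hF ∧ u • x ≠ x := by
  have : IsScalarTower ℚ M A := IsScalarTower.of_algebraMap_eq' (Subsingleton.elim _ _)
  constructor
  · intro h x
    by_contra hc
    push Not at hc
    obtain ⟨g, rfl⟩ := (incl hK).exists_smul x
    refine h (g.liftNormal A).symm fun k hk => ?_
    obtain ⟨e, he⟩ := (incl hF).mem_range ((g • incl hK).hom ⟨k, hk⟩) fun u hu =>
      congrArg (fun x : Emb K M => x.hom ⟨k, hk⟩) (hc u hu)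
    refine ⟨e, e.2, ?_⟩
    change (g.liftNormal A).symm e = k
    rw [AlgEquiv.symm_apply_eq]
    exact (congrArg Subtype.val he).trans (g.liftNormal_commutes A ⟨k, hK hk⟩).symm
  · intro h σ hc
    obtain ⟨u, h1, h2⟩ := h ((σ.restrictNormal M)⁻¹ • incl hK)
    refine h2 (Emb.ext fun k => ?_)
    obtain ⟨e, he, hk⟩ := hc k.2
    have h3 : ((σ.restrictNormal M)⁻¹ • incl hK).hom k = (incl hF).hom ⟨e, he⟩ := by
      change (σ.restrictNormal M).symm _ = _
      rw [AlgEquiv.symm_apply_eq]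
      exact Subtype.ext (hk.symm.trans (σ.restrictNormal_commutes M ⟨e, hF he⟩).symm)
    rw [Emb.smul_apply, h3]
    exact congrArg (fun x : Emb F M => x.hom ⟨e, he⟩) h1

lemma splits_of [Normal ℚ A] {K F M : IntermediateField ℚ A} [NumberField F]
    [NumberField M] [IsGalois ℚ M] (hK : K ≤ M) (hF : F ≤ M) (H : Subgroup (M ≃ₐ[ℚ] M))
    (h1 : ∀ g : M ≃ₐ[ℚ] M, ∃ h ∈ H, ∀ x : Emb K M, h • x = g • x)
    (h2 : ∀ h ∈ H, (∀ x : Emb K M, h • x = x) →
      ∀ g : M ≃ₐ[ℚ] M, (g⁻¹ * h * g) • incl hF = incl hF) :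
    SplitsOver (normalClosure ℚ K A) (normalClosure ℚ K A ⊔ normalClosure ℚ F A) le_sup_left := by
  have hM : Normal ℚ M := inferInstance
  have n1 := normalClosure.normal ℚ K A
  have n2 := normalClosure.normal ℚ F A
  have n3 := normal_sup ℚ A (normalClosure ℚ K A) (normalClosure ℚ F A)
  have l1 : normalClosure ℚ K A ≤ M := (@normalClosure_le_iff_of_normal _ _ _ _ _ _ _ _ hM).2 hK
  have l2 : normalClosure ℚ F A ≤ M := (@normalClosure_le_iff_of_normal _ _ _ _ _ _ _ _ hM).2 hF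
  have l3 : normalClosure ℚ K A ⊔ normalClosure ℚ F A ≤ M := sup_le l1 l2
  obtain ⟨r, hr⟩ := exists_res l3 n3
  have fix : ∀ (u : M ≃ₐ[ℚ] M) (m : M), m.1 ∈ lift (fixedField (zpowers u)) → u m = m :=
    fun u m hm => (mem_fixedField_iff _ _).1 ((mem_lift m).1 hm) u (mem_zpowers u)
  refine ⟨H.map r, fun g => ?_⟩
  obtain ⟨s, hs⟩ := exists_lift l1 hM g
  obtain ⟨h, hH, hh⟩ := h1 s
  have key : ∀ a : M ≃ₐ[ℚ] M, (∀ x, r a (inclusion le_sup_left x) = inclusion le_sup_left (g x)) ↔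
      ∀ x, a (inclusion l1 x) = s (inclusion l1 x) := fun a => by
    refine forall_congr' fun x => ?_
    rw [← (inclusion_injective l3).eq_iff, hr, hs]
    rfl
  have h3 : ∀ x, h (inclusion l1 x) = s (inclusion l1 x) := fun x => by
    have := fix (s⁻¹ * h) (inclusion l1 x)
      (nc_le l1 _ (fun y => by rw [mul_smul, hh, inv_smul_smul]) x.2)
    exact (AlgEquiv.symm_apply_eq s).1 this
  refine ⟨r h, ⟨mem_map_of_mem r hH, (key h).2 h3⟩, ?_⟩
  rintro _ ⟨⟨a, ha, rfl⟩, h4⟩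
  rw [key] at h4
  have h5 : ∀ x : Emb K M, (h⁻¹ * a) • x = x := fun x => Emb.ext fun k => by
    change h.symm (a _) = _
    rw [AlgEquiv.symm_apply_eq]
    exact (h4 ⟨_, emb_mem_nc x k⟩).trans (h3 ⟨_, emb_mem_nc x k⟩).symm
  have h6 : ∀ y : Emb F M, (h⁻¹ * a) • y = y := fun y => by
    obtain ⟨g, rfl⟩ := (incl hF).exists_smul y
    have := h2 _ (mul_mem (inv_mem hH) ha) h5 g
    rwa [mul_smul, mul_smul, inv_smul_eq_iff] at this
  ext x
  have h7 := fix (h⁻¹ * a) (inclusion l3 x) (sup_le (nc_le l1 _ h5) (nc_le l2 _ h6) x.2)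
  have h8 : a (inclusion l3 x) = h (inclusion l3 x) := (AlgEquiv.symm_apply_eq h).1 h7
  rw [← hr, ← hr] at h8
  exact congrArg Subtype.val (inclusion_injective l3 h8)

lemma exists_big [IsAlgClosed A] [Normal ℚ A] (K F : IntermediateField ℚ A)
    [FiniteDimensional ℚ K] [FiniteDimensional ℚ F] (N : ℕ) :
    ∃ M : IntermediateField ℚ A, FiniteDimensional ℚ M ∧ Normal ℚ M ∧ K ≤ M ∧ F ≤ M ∧
      ∃ l, N ≤ l ∧ ∃ ρ : (M ≃ₐ[ℚ] M) →* Equiv.Perm (Fin l), Surjective ρ := by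
  obtain ⟨l, hl, f, hf, ρ, hρ⟩ := exists_sym N
  have : FiniteDimensional ℚ (adjoin ℚ (f.rootSet A)) := finiteDimensional_adjoin fun x hx =>
    (Algebra.IsAlgebraic.isAlgebraic x).isIntegral
  let T := K ⊔ F ⊔ adjoin ℚ (f.rootSet A)
  have hT : T ≤ normalClosure ℚ T A := le_normalClosure T
  have hN : Normal ℚ (normalClosure ℚ T A) := normalClosure.normal ℚ T A
  have : Fact (f.map (algebraMap ℚ (normalClosure ℚ T A))).Splits :=
    ⟨splits_of_splits (IsAlgClosed.splits _) fun x hx => hT (le_sup_right (a := K ⊔ F)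
      (subset_adjoin _ _ hx))⟩
  exact ⟨normalClosure ℚ T A, normalClosure.is_finiteDimensional ℚ T A, hN,
    (le_sup_left.trans le_sup_left).trans hT, (le_sup_right.trans le_sup_left).trans hT,
    l, hl, ρ.comp (Polynomial.Gal.restrict f _), hρ.comp (Polynomial.Gal.restrict_surjective f _)⟩

end Pool.Agent.MP_d64882_nt
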